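import Mathlib

/-!
# N-adic complexity: definitions

Sequences over `S = {0, ..., N-1}` are functions `ℕ → Fin N`.
-/

namespace NAdicCx

open Filter

variable {N : ℕ}

/-- The truncation `a_0 + a_1 N + ... + a_{n-1} N^(n-1)` of the `N`-adic integer attached to the
sequence `a` over `{0, ..., N-1}`. -/
def trunc (a : ℕ → Fin N) (n : ℕ) : ℤ :=
  ∑ i ∈ Finset.range n, ((a i : ℕ) : ℤ) * (N : ℤ) ^ i

/-- `Represents a u g`: the equality `g * a = u` in the ring `Z_N = lim Z / N^n` of `N`-adic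
integers, where `a = ∑ a_i N^i`; for `g` coprime to `N` it says that `a = u / g`. -/
def Represents (a : ℕ → Fin N) (u g : ℤ) : Prop :=
  ∀ n : ℕ, (N : ℤ) ^ n ∣ g * trunc a n - u

/-- The sequence `a` is eventually periodic. -/
def EvPeriodic (a : ℕ → Fin N) : Prop :=
  ∃ p : ℕ, 0 < p ∧ ∃ m : ℕ, ∀ n : ℕ, m ≤ n → a (n + p) = a n

/-- `x` is the `N`-adic complexity `log_N max(|u|, |g|)` of the sequence `b`, where `b = u / g`
in lowest terms, with `g` coprime to `N`. -/
def HasComplexity (b : ℕ → Fin N) (x : ℝ) : Prop :=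
  ∃ u g : ℤ, IsCoprime u g ∧ IsCoprime g (N : ℤ) ∧ Represents b u g ∧
    x = Real.logb N ((max |u| |g| : ℤ) : ℝ)

/-- The complexity `λ_{N,n}(a)` of the word `a_0, ..., a_{n-1}`: the minimum of the complexities of
the eventually periodic sequences `b` that begin with this word. -/
noncomputable def lam (a : ℕ → Fin N) (n : ℕ) : ℝ :=
  sInf {x : ℝ | ∃ b : ℕ → Fin N, EvPeriodic b ∧ (∀ i, i < n → b i = a i) ∧ HasComplexity b x}

/-- The normalised complexity `δ_{N,n}(a) = λ_{N,n}(a) / n`. -/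
noncomputable def delta (a : ℕ → Fin N) (n : ℕ) : ℝ := lam a n / n

/-- The set `T(a)` of accumulation points of the sequence `(δ_{N,n}(a))_n`. -/
def accSet (a : ℕ → Fin N) : Set ℝ :=
  {x : ℝ | MapClusterPt x atTop (fun n : ℕ => delta a n)}

/-- Assertion (a): for every `a` that is not eventually periodic, `T(a) = [B, 1 - B]` for
some `B`. -/
def AssertionA (N : ℕ) : Prop :=
  ∀ a : ℕ → Fin N, ¬ EvPeriodic a → ∃ B : ℝ, accSet a = Set.Icc B (1 - B)

/-- Assertion (b): for every `B ∈ [0, 1/2]` there are uncountably many `a` with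
`T(a) = [B, 1 - B]`. -/
def AssertionB (N : ℕ) : Prop :=
  ∀ B : ℝ, B ∈ Set.Icc (0 : ℝ) (1 / 2) →
    ¬ {a : ℕ → Fin N | accSet a = Set.Icc B (1 - B)}.Countable

end NAdicCx
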