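import Mathlib
import Pool.Agent.NAdicCx.Defs

/-!
# Basic facts on truncations, rational N-adic integers and periodic expansions
-/

namespace NAdicCx

open Filter

variable {N : ℕ}

lemma trunc_zero (a : ℕ → Fin N) : trunc a 0 = 0 := by simp [trunc]

lemma trunc_succ (a : ℕ → Fin N) (n : ℕ) :
    trunc a (n + 1) = trunc a n + ((a n : ℕ) : ℤ) * (N : ℤ) ^ n := by
  simp [trunc, Finset.sum_range_succ]

lemma trunc_nonneg (a : ℕ → Fin N) (n : ℕ) : 0 ≤ trunc a n := by
  unfold trunc
  positivity

lemma trunc_lt (a : ℕ → Fin N) (n : ℕ) : trunc a n < (N : ℤ) ^ n := by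
  induction n with
  | zero => simp [trunc]
  | succ n ih =>
    rw [trunc_succ, pow_succ]
    have h1 : ((a n : ℕ) : ℤ) + 1 ≤ (N : ℤ) := by
      have := (a n).isLt
      exact_mod_cast this
    have h2 : 0 ≤ (N : ℤ) ^ n := by positivity
    nlinarith

lemma trunc_mod (a : ℕ → Fin N) {m n : ℕ} (h : m ≤ n) :
    (N : ℤ) ^ m ∣ trunc a n - trunc a m := by
  induction n, h using Nat.le_induction with
  | base => simp
  | succ n hn ih =>
    rw [trunc_succ]
    have h1 : (N : ℤ) ^ m ∣ ((a n : ℕ) : ℤ) * (N : ℤ) ^ n :=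
      Dvd.dvd.mul_left (pow_dvd_pow _ hn) _
    have h2 := dvd_add ih h1
    have h3 : trunc a n + ((a n : ℕ) : ℤ) * (N : ℤ) ^ n - trunc a m
        = trunc a n - trunc a m + ((a n : ℕ) : ℤ) * (N : ℤ) ^ n := by ring
    rw [h3]
    exact h2

/-- Congruent truncations have the same digits. -/
lemma digits_eq (a b : ℕ → Fin N) (n : ℕ) (h : (N : ℤ) ^ n ∣ trunc a n - trunc b n) :
    ∀ i, i < n → a i = b i := by
  induction n with
  | zero => intro i hi; omega
  | succ n ih =>
    have h0 : (N : ℤ) ^ n ∣ trunc a n - trunc b n := by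
      have h1 : (N : ℤ) ^ n ∣ trunc a (n + 1) - trunc b (n + 1) :=
        (pow_dvd_pow _ (Nat.le_succ n)).trans h
      have h2 := trunc_mod a (Nat.le_succ n)
      have h3 := trunc_mod b (Nat.le_succ n)
      have h4 : trunc a n - trunc b n = (trunc a (n + 1) - trunc b (n + 1))
        - (trunc a (n + 1) - trunc a n) + (trunc b (n + 1) - trunc b n) := by ring
      rw [h4]
      exact dvd_add (dvd_sub h1 h2) h3
    have ih' := ih h0
    -- equality of full truncations
    have heq : trunc a (n + 1) = trunc b (n + 1) := by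
      have ha1 := trunc_nonneg a (n + 1)
      have ha2 := trunc_lt a (n + 1)
      have hb1 := trunc_nonneg b (n + 1)
      have hb2 := trunc_lt b (n + 1)
      have h5 : trunc a (n + 1) - trunc b (n + 1) = 0 := by
        apply Int.eq_zero_of_abs_lt_dvd h
        rw [abs_lt]
        constructor <;> linarith
      linarith
    have heq' : trunc a n = trunc b n := by
      unfold trunc
      apply Finset.sum_congr rfl
      intro i hi
      rw [ih' i (Finset.mem_range.mp hi)]
    intro i hi
    rcases Nat.lt_succ_iff_lt_or_eq.mp hi with h6 | h6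
    · exact ih' i h6
    · subst h6
      rw [trunc_succ, trunc_succ, heq'] at heq
      have hN : 0 < N := lt_of_le_of_lt (Nat.zero_le _) (a i).isLt
      have hNp : (N : ℤ) ^ i ≠ 0 := by positivity
      have h7 : ((a i : ℕ) : ℤ) = ((b i : ℕ) : ℤ) := by
        have : ((a i : ℕ) : ℤ) * (N : ℤ) ^ i = ((b i : ℕ) : ℤ) * (N : ℤ) ^ i := by linarith
        exact mul_right_cancel₀ hNp this
      apply Fin.ext
      exact_mod_cast h7

lemma isCoprime_pow {g : ℤ} (h : IsCoprime g (N : ℤ)) (n : ℕ) : IsCoprime g ((N : ℤ) ^ n) :=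
  h.pow_right

/-- Membership in the lattice `L_n = {(u, g) : u ≡ A_n g mod N^n}`. -/
def Lat (a : ℕ → Fin N) (n : ℕ) (u g : ℤ) : Prop :=
  (N : ℤ) ^ n ∣ g * trunc a n - u

lemma Lat.mono {a : ℕ → Fin N} {m n : ℕ} {u g : ℤ} (h : Lat a n u g) (hmn : m ≤ n) :
    Lat a m u g := by
  unfold Lat at *
  have h1 : (N : ℤ) ^ m ∣ g * trunc a n - u := (pow_dvd_pow _ hmn).trans h
  have h2 : (N : ℤ) ^ m ∣ g * (trunc a n - trunc a m) := Dvd.dvd.mul_left (trunc_mod a hmn) _
  have h3 : g * trunc a m - u = (g * trunc a n - u) - g * (trunc a n - trunc a m) := by ring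
  rw [h3]
  exact dvd_sub h1 h2

/-- If a word is compatible with `u / g` up to `n` and `b = u / g`, the digits agree. -/
lemma digits_of_lat {a b : ℕ → Fin N} {n : ℕ} {u g : ℤ} (hg : IsCoprime g (N : ℤ))
    (ha : Lat a n u g) (hb : Lat b n u g) : ∀ i, i < n → a i = b i := by
  apply digits_eq
  have h1 : (N : ℤ) ^ n ∣ g * (trunc a n - trunc b n) := by
    have h2 : g * (trunc a n - trunc b n) = (g * trunc a n - u) - (g * trunc b n - u) := by ring
    rw [h2]
    exact dvd_sub ha hb
  exact (isCoprime_pow hg n).symm.dvd_of_dvd_mul_left h1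

lemma exists_digit (hN : 2 ≤ N) (g y : ℤ) (hg : IsCoprime g (N : ℤ)) :
    ∃ d : Fin N, (N : ℤ) ∣ y - g * ((d : ℕ) : ℤ) := by
  obtain ⟨s, t, hst⟩ := hg
  have hN0 : (0 : ℤ) < N := by exact_mod_cast (by omega : 0 < N)
  have h1 := Int.emod_nonneg (s * y) (ne_of_gt hN0)
  have h2 := Int.emod_lt_of_pos (s * y) hN0
  have h3 : ((s * y) % (N : ℤ)).toNat < N := by
    have : (((s * y) % (N : ℤ)).toNat : ℤ) < N := by
      rw [Int.toNat_of_nonneg h1]; exact h2
    exact_mod_cast this
  refine ⟨⟨((s * y) % (N : ℤ)).toNat, h3⟩, ?_⟩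
  show (N : ℤ) ∣ y - g * ((((s * y) % (N : ℤ)).toNat : ℕ) : ℤ)
  rw [Int.toNat_of_nonneg h1]
  have h4 : (s * y) % (N : ℤ) = s * y - N * (s * y / N) := by
    have := Int.emod_add_mul_ediv (s * y) (N : ℤ)
    linarith
  rw [h4]
  refine ⟨t * y + g * (s * y / N), ?_⟩
  have : s * g = 1 - t * N := by linarith
  calc y - g * (s * y - N * (s * y / N)) = y - (s * g) * y + N * (g * (s * y / N)) := by ring
    _ = _ := by rw [this]; ring

/-- The digit function of a rational N-adic integer. -/
noncomputable def digitOf (hN : 2 ≤ N) (g : ℤ) (hg : IsCoprime g (N : ℤ)) (y : ℤ) : Fin N :=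
  Classical.choose (exists_digit hN g y hg)

lemma digitOf_spec (hN : 2 ≤ N) (g : ℤ) (hg : IsCoprime g (N : ℤ)) (y : ℤ) :
    (N : ℤ) ∣ y - g * ((digitOf hN g hg y : ℕ) : ℤ) :=
  Classical.choose_spec (exists_digit hN g y hg)

/-- The successive remainders of the expansion of `u / g`. -/
noncomputable def remSeq (hN : 2 ≤ N) (g : ℤ) (hg : IsCoprime g (N : ℤ)) (u : ℤ) : ℕ → ℤ
  | 0 => u
  | n + 1 => (remSeq hN g hg u n - g * ((digitOf hN g hg (remSeq hN g hg u n) : ℕ) : ℤ)) / N

/-- Every fraction `u / g` with `g` coprime to `N` has an eventually periodic expansion. -/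
lemma exists_expansion (hN : 2 ≤ N) (u g : ℤ) (hg : IsCoprime g (N : ℤ)) :
    ∃ b : ℕ → Fin N, Represents b u g ∧ EvPeriodic b := by
  have hN0 : (0 : ℤ) < N := by exact_mod_cast (by omega : 0 < N)
  have hN2 : (2 : ℤ) ≤ N := by exact_mod_cast hN
  let r : ℕ → ℤ := remSeq hN g hg u
  have hr0 : r 0 = u := rfl
  have hrs : ∀ n, r (n + 1) = (r n - g * ((digitOf hN g hg (r n) : ℕ) : ℤ)) / N := fun n => rfl
  have hrs' : ∀ n, N * r (n + 1) = r n - g * ((digitOf hN g hg (r n) : ℕ) : ℤ) := by
    intro n
    rw [hrs n]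
    exact Int.mul_ediv_cancel' (digitOf_spec hN g hg (r n))
  let b : ℕ → Fin N := fun n => digitOf hN g hg (r n)
  have hb : ∀ n, b n = digitOf hN g hg (r n) := fun n => rfl
  refine ⟨b, ?_, ?_⟩
  · have key : ∀ n, u - g * trunc b n = (N : ℤ) ^ n * r n := by
      intro n
      induction n with
      | zero => simp [trunc, hr0]
      | succ n ih =>
        rw [trunc_succ, hb n]
        have h1 := hrs' n
        have : u - g * (trunc b n + ((digitOf hN g hg (r n) : ℕ) : ℤ) * (N : ℤ) ^ n)
            = (u - g * trunc b n) - g * ((digitOf hN g hg (r n) : ℕ) : ℤ) * (N : ℤ) ^ n := by ring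
        rw [this, ih, pow_succ]
        have h2 : (N : ℤ) ^ n * (N : ℤ) * r (n + 1) = (N : ℤ) ^ n * (N * r (n + 1)) := by ring
        rw [h2, h1]
        ring
    intro n
    refine ⟨- r n, ?_⟩
    have := key n
    linarith
  · -- boundedness of the remainders
    have hbound : ∀ n, |r n| ≤ max |u| |g| := by
      intro n
      induction n with
      | zero => exact le_max_left _ _
      | succ n ih =>
        have h1 := hrs' n
        have h2 : |(N : ℤ) * r (n + 1)| ≤ |r n| + |g| * (N - 1) := by
          rw [h1]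
          have hd : ((digitOf hN g hg (r n) : ℕ) : ℤ) + 1 ≤ N := by
            have := (digitOf hN g hg (r n)).isLt
            exact_mod_cast this
          have hd0 : (0 : ℤ) ≤ ((digitOf hN g hg (r n) : ℕ) : ℤ) := by positivity
          calc |r n - g * ((digitOf hN g hg (r n) : ℕ) : ℤ)|
              ≤ |r n| + |g * ((digitOf hN g hg (r n) : ℕ) : ℤ)| := abs_sub _ _
            _ = |r n| + |g| * ((digitOf hN g hg (r n) : ℕ) : ℤ) := by
                rw [abs_mul, abs_of_nonneg hd0]
            _ ≤ _ := by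
                have := mul_le_mul_of_nonneg_left (show ((digitOf hN g hg (r n) : ℕ) : ℤ) ≤ N - 1
                  by linarith) (abs_nonneg g)
                linarith
        rw [abs_mul, abs_of_pos hN0] at h2
        have h3 : |g| ≤ max |u| |g| := le_max_right _ _
        have h4 : 0 ≤ max |u| |g| := le_trans (abs_nonneg _) h3
        have h5 : (N : ℤ) * |r (n + 1)| ≤ N * max |u| |g| := by nlinarith
        exact le_of_mul_le_mul_left h5 hN0
    -- pigeonhole
    have hfin : (Set.range r).Finite := by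
      apply Set.Finite.subset (Set.finite_Icc (-(max |u| |g|)) (max |u| |g|))
      rintro x ⟨n, rfl⟩
      exact abs_le.mp (hbound n)
    have hnotinj : ¬ Function.Injective r := by
      intro hinj
      exact Set.infinite_range_of_injective hinj hfin
    unfold Function.Injective at hnotinj
    push Not at hnotinj
    obtain ⟨i, j, hij, hne⟩ := hnotinj
    wlog hlt : i < j generalizing i j
    · exact this j i hij.symm hne.symm (lt_of_le_of_ne (not_lt.mp hlt) hne.symm)
    refine ⟨j - i, by omega, i, ?_⟩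
    have hper : ∀ k, r (i + k + (j - i)) = r (i + k) := by
      intro k
      induction k with
      | zero =>
        have : i + 0 + (j - i) = j := by omega
        rw [this, hij.symm]; rfl
      | succ k ih =>
        have h1 : i + (k + 1) + (j - i) = (i + k + (j - i)) + 1 := by omega
        rw [h1, hrs, ih, ← hrs]
        rfl
    intro n hn
    obtain ⟨k, rfl⟩ := Nat.exists_eq_add_of_le hn
    rw [hb, hb, hper k]

/-- A sequence representing a rational with denominator coprime to `N` is eventually periodic. -/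
lemma evPeriodic_of_represents (hN : 2 ≤ N) {a : ℕ → Fin N} {u g : ℤ}
    (hg : IsCoprime g (N : ℤ)) (h : Represents a u g) : EvPeriodic a := by
  obtain ⟨b, hb, hper⟩ := exists_expansion hN u g hg
  have hab : a = b := by
    funext i
    exact digits_of_lat hg (h (i + 1)) (hb (i + 1)) i (Nat.lt_succ_self i)
  rw [hab]; exact hper

/-- An eventually periodic sequence represents a rational with denominator coprime to `N`. -/
lemma represents_of_evPeriodic {a : ℕ → Fin N} (h : EvPeriodic a) :
    ∃ u g : ℤ, IsCoprime g (N : ℤ) ∧ Represents a u g := by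
  obtain ⟨p, hp, m, hm⟩ := h
  have key : ∀ k, trunc a (m + k + p) - (N : ℤ) ^ p * trunc a (m + k)
      = trunc a (m + p) - (N : ℤ) ^ p * trunc a m := by
    intro k
    induction k with
    | zero => simp
    | succ k ih =>
      have h1 : m + (k + 1) + p = (m + k + p) + 1 := by omega
      have h2 : m + (k + 1) = (m + k) + 1 := by omega
      rw [h1, h2, trunc_succ, trunc_succ, hm (m + k) (by omega), ← ih]
      ring
  refine ⟨trunc a (m + p) - (N : ℤ) ^ p * trunc a m, 1 - (N : ℤ) ^ p, ?_, ?_⟩
  · refine ⟨1, (N : ℤ) ^ (p - 1), ?_⟩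
    have : (N : ℤ) ^ p = (N : ℤ) ^ (p - 1) * N := by
      rw [← pow_succ]; congr 1; omega
    rw [this]; ring
  · have h1 : ∀ k, (N : ℤ) ^ (m + k) ∣ (1 - (N : ℤ) ^ p) * trunc a (m + k)
        - (trunc a (m + p) - (N : ℤ) ^ p * trunc a m) := by
      intro k
      rw [← key k]
      have h2 := trunc_mod a (show m + k ≤ m + k + p by omega)
      have h3 : (1 - (N : ℤ) ^ p) * trunc a (m + k)
        - (trunc a (m + k + p) - (N : ℤ) ^ p * trunc a (m + k))
        = -(trunc a (m + k + p) - trunc a (m + k)) := by ring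
      rw [h3]
      exact (dvd_neg).mpr h2
    intro n
    have h2 : Lat a (m + n) (trunc a (m + p) - (N : ℤ) ^ p * trunc a m) (1 - (N : ℤ) ^ p) := h1 n
    exact h2.mono (by omega)

end NAdicCx
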