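import Mathlib
import Pool.Agent.NAdicCx.Basic

/-!
# The complexity of a word as a minimum over a lattice
-/

namespace NAdicCx

open Filter

variable {N : ℕ}

/-- Set of norms of lattice vectors with `g` coprime to `N`. -/
def normSet (a : ℕ → Fin N) (n : ℕ) : Set ℕ :=
  {m : ℕ | ∃ u g : ℤ, IsCoprime g (N : ℤ) ∧ Lat a n u g ∧ (m : ℤ) = max |u| |g|}

/-- Minimal norm of lattice vectors with `g` coprime to `N`. -/
noncomputable def Lam (a : ℕ → Fin N) (n : ℕ) : ℕ := sInf (normSet a n)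

lemma normSet_nonempty (a : ℕ → Fin N) (n : ℕ) : (normSet a n).Nonempty := by
  refine ⟨(max |trunc a n| |1|).toNat, trunc a n, 1, isCoprime_one_left, ?_, ?_⟩
  · unfold Lat; simp
  · rw [Int.toNat_of_nonneg]
    exact le_trans (abs_nonneg _) (le_max_left _ _)

lemma Lam_spec (a : ℕ → Fin N) (n : ℕ) :
    ∃ u g : ℤ, IsCoprime g (N : ℤ) ∧ Lat a n u g ∧ (Lam a n : ℤ) = max |u| |g| :=
  Nat.sInf_mem (normSet_nonempty a n)

lemma Lam_le {a : ℕ → Fin N} {n : ℕ} {u g : ℤ} (hg : IsCoprime g (N : ℤ)) (h : Lat a n u g) :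
    (Lam a n : ℤ) ≤ max |u| |g| := by
  have h0 : 0 ≤ max |u| |g| := le_trans (abs_nonneg _) (le_max_left _ _)
  have h1 : (max |u| |g|).toNat ∈ normSet a n := ⟨u, g, hg, h, Int.toNat_of_nonneg h0⟩
  have h2 : Lam a n ≤ (max |u| |g|).toNat := Nat.sInf_le h1
  have h3 : ((Lam a n : ℕ) : ℤ) ≤ (((max |u| |g|).toNat : ℕ) : ℤ) := by exact_mod_cast h2
  rwa [Int.toNat_of_nonneg h0] at h3

lemma ne_zero_of_coprime (hN : 2 ≤ N) {g : ℤ} (hg : IsCoprime g (N : ℤ)) : g ≠ 0 := by
  rintro rfl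
  have h1 := isCoprime_zero_left.mp hg
  rw [Int.isUnit_iff] at h1
  rcases h1 with h1 | h1
  · have : N = 1 := by exact_mod_cast h1
    omega
  · have : (0 : ℤ) ≤ N := by positivity
    omega

lemma Lam_pos (hN : 2 ≤ N) (a : ℕ → Fin N) (n : ℕ) : 1 ≤ Lam a n := by
  obtain ⟨u, g, hg, -, h⟩ := Lam_spec a n
  have h1 : g ≠ 0 := ne_zero_of_coprime hN hg
  have h2 : 1 ≤ |g| := Int.one_le_abs h1
  have h3 : (1 : ℤ) ≤ Lam a n := by rw [h]; exact le_trans h2 (le_max_right _ _)
  exact_mod_cast h3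

lemma Lam_mono (a : ℕ → Fin N) {m n : ℕ} (hmn : m ≤ n) : Lam a m ≤ Lam a n := by
  obtain ⟨u, g, hg, hl, h⟩ := Lam_spec a n
  have h1 := Lam_le hg (hl.mono hmn)
  rw [← h] at h1
  exact_mod_cast h1

lemma Lam_le_pow (hN : 2 ≤ N) (a : ℕ → Fin N) (n : ℕ) : Lam a n ≤ N ^ n := by
  have h1 : (Lam a n : ℤ) ≤ max |trunc a n| |1| :=
    Lam_le isCoprime_one_left (by unfold Lat; simp)
  have h2 := trunc_nonneg a n
  have h3 := trunc_lt a n
  have h4 : (1 : ℤ) ≤ (N : ℤ) ^ n := by
    have : (1 : ℤ) ≤ N := by exact_mod_cast (by omega : 1 ≤ N)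
    exact one_le_pow₀ this
  have h5 : max |trunc a n| |1| ≤ (N : ℤ) ^ n := by
    rw [abs_of_nonneg h2]
    simp only [abs_one, max_le_iff]
    exact ⟨h3.le, h4⟩
  have h6 := h1.trans h5
  exact_mod_cast h6

/-- `λ_{N,n}(a) = log_N Λ_n(a)`, and the infimum in the definition of `lam` is a minimum. -/
lemma lam_isLeast (hN : 2 ≤ N) (a : ℕ → Fin N) (n : ℕ) :
    IsLeast {x : ℝ | ∃ b : ℕ → Fin N, EvPeriodic b ∧ (∀ i, i < n → b i = a i) ∧
      HasComplexity b x} (Real.logb N (Lam a n)) := by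
  have hN1 : (1 : ℝ) < N := by exact_mod_cast (by omega : 1 < N)
  constructor
  · obtain ⟨u, g, hg, hl, h⟩ := Lam_spec a n
    have hg0 : g ≠ 0 := ne_zero_of_coprime hN hg
    -- lowest terms
    have hcop : IsCoprime u g := by
      rw [Int.isCoprime_iff_gcd_eq_one]
      set d : ℕ := Int.gcd u g with hd
      have hdpos : 0 < d := Int.gcd_pos_of_ne_zero_right u hg0
      obtain ⟨u', hu'⟩ : (d : ℤ) ∣ u := Int.gcd_dvd_left u g
      obtain ⟨g', hg'⟩ : (d : ℤ) ∣ g := Int.gcd_dvd_right u g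
      have hdN : IsCoprime (d : ℤ) (N : ℤ) := by
        rw [hg'] at hg
        exact hg.of_mul_left_left
      have hgN' : IsCoprime g' (N : ℤ) := by
        rw [hg'] at hg
        exact hg.of_mul_left_right
      have hl' : Lat a n u' g' := by
        unfold Lat at hl ⊢
        have h1 : (N : ℤ) ^ n ∣ (d : ℤ) * (g' * trunc a n - u') := by
          have h2 : (d : ℤ) * (g' * trunc a n - u') = g * trunc a n - u := by
            conv_rhs => rw [hg', hu']
            ring
          rw [h2]; exact hl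
        exact (isCoprime_pow hdN n).symm.dvd_of_dvd_mul_left h1
      have h2 := Lam_le hgN' hl'
      have h3 : max |u| |g| = (d : ℤ) * max |u'| |g'| := by
        conv_lhs => rw [hg', hu']
        rw [abs_mul, abs_mul, Nat.abs_cast, mul_max_of_nonneg _ _ (by positivity : (0:ℤ) ≤ d)]
      rw [h, h3] at h2
      have h4 : 1 ≤ max |u'| |g'| := by
        have : 1 ≤ |g'| := Int.one_le_abs (ne_zero_of_coprime hN hgN')
        exact le_trans this (le_max_right _ _)
      have h5 : (d : ℤ) ≤ 1 := by nlinarith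
      have h6 : d ≤ 1 := by exact_mod_cast h5
      omega
    obtain ⟨b, hb, hper⟩ := exists_expansion hN u g hg
    refine ⟨b, hper, ?_, u, g, hcop, hg, hb, ?_⟩
    · intro i hi
      exact (digits_of_lat hg hl (hb n) i hi).symm
    · rw [← h]; simp
  · rintro x ⟨b, -, hba, u, g, -, hg, hrep, rfl⟩
    have htr : trunc b n = trunc a n := by
      unfold trunc
      apply Finset.sum_congr rfl
      intro i hi
      rw [hba i (Finset.mem_range.mp hi)]
    have hl : Lat a n u g := by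
      unfold Lat
      rw [← htr]
      exact hrep n
    have h1 := Lam_le hg hl
    have h2 : (0 : ℝ) < Lam a n := by exact_mod_cast Lam_pos hN a n
    apply Real.logb_le_logb_of_le hN1 h2
    exact_mod_cast h1

lemma lam_eq (hN : 2 ≤ N) (a : ℕ → Fin N) (n : ℕ) : lam a n = Real.logb N (Lam a n) :=
  (lam_isLeast hN a n).csInf_eq

lemma lam_nonneg (hN : 2 ≤ N) (a : ℕ → Fin N) (n : ℕ) : 0 ≤ lam a n := by
  rw [lam_eq hN]
  apply Real.logb_nonneg
  · exact_mod_cast (by omega : 1 < N)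
  · exact_mod_cast Lam_pos hN a n

lemma lam_mono (hN : 2 ≤ N) (a : ℕ → Fin N) {m n : ℕ} (hmn : m ≤ n) : lam a m ≤ lam a n := by
  rw [lam_eq hN, lam_eq hN]
  apply Real.logb_le_logb_of_le
  · exact_mod_cast (by omega : 1 < N)
  · exact_mod_cast Lam_pos hN a m
  · exact_mod_cast Lam_mono a hmn

lemma lam_le (hN : 2 ≤ N) (a : ℕ → Fin N) (n : ℕ) : lam a n ≤ n := by
  rw [lam_eq hN]
  have hN1 : (1 : ℝ) < N := by exact_mod_cast (by omega : 1 < N)
  have h1 : Real.logb N (Lam a n) ≤ Real.logb N ((N : ℝ) ^ n) := by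
    apply Real.logb_le_logb_of_le hN1
    · exact_mod_cast Lam_pos hN a n
    · exact_mod_cast Lam_le_pow hN a n
  rw [Real.logb_pow, Real.logb_self_eq_one hN1, mul_one] at h1
  exact h1

lemma delta_nonneg (hN : 2 ≤ N) (a : ℕ → Fin N) (n : ℕ) : 0 ≤ delta a n :=
  div_nonneg (lam_nonneg hN a n) (by positivity)

lemma delta_le_one (hN : 2 ≤ N) (a : ℕ → Fin N) (n : ℕ) : delta a n ≤ 1 := by
  unfold delta
  rcases Nat.eq_zero_or_pos n with h | h
  · subst h; simp
  · rw [div_le_one (by exact_mod_cast h)]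
    exact lam_le hN a n

/-- Slow decrease of the normalised complexity. -/
lemma delta_succ_ge (hN : 2 ≤ N) (a : ℕ → Fin N) (n : ℕ) (hn : 1 ≤ n) :
    delta a n - 1 / n ≤ delta a (n + 1) := by
  have h1 := lam_mono hN a (Nat.le_succ n)
  have h2 := lam_le hN a n
  have hn0 : (0 : ℝ) < n := by exact_mod_cast hn
  unfold delta
  rw [← sub_div, div_le_div_iff₀ hn0 (by positivity)]
  push_cast at *
  have h3 : (lam a n - 1) * ((n : ℝ) + 1) ≤ lam a n * n := by nlinarith
  have h4 : lam a n * n ≤ lam a (n + 1) * n := by nlinarith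
  linarith

/-- Criterion for the set of accumulation points to be an interval. -/
lemma accSet_eq_Icc (hN : 2 ≤ N) (a : ℕ → Fin N) (B C : ℝ)
    (h1 : ∀ ε > 0, ∀ᶠ n in atTop, B - ε ≤ delta a n)
    (h2 : ∀ ε > 0, ∀ᶠ n in atTop, delta a n ≤ C + ε)
    (h3 : ∀ ε > 0, ∃ᶠ n in atTop, delta a n ≤ B + ε)
    (h4 : ∀ ε > 0, ∃ᶠ n in atTop, C - ε ≤ delta a n) :
    accSet a = Set.Icc B C := by
  ext x
  constructor
  · intro hx
    have hx' : MapClusterPt x atTop (fun n : ℕ => delta a n) := hx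
    rw [mapClusterPt_iff_frequently] at hx'
    constructor
    · by_contra hlt
      push Not at hlt
      have hε : 0 < (B - x) / 2 := by linarith
      have hnb : Set.Iio ((B + x) / 2) ∈ nhds x := Iio_mem_nhds (by linarith)
      have hf := hx' _ hnb
      have he := h1 _ hε
      obtain ⟨n, hn1, hn2⟩ := (hf.and_eventually he).exists
      simp only [Set.mem_Iio] at hn1
      linarith
    · by_contra hlt
      push Not at hlt
      have hε : 0 < (x - C) / 2 := by linarith
      have hnb : Set.Ioi ((x + C) / 2) ∈ nhds x := Ioi_mem_nhds (by linarith)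
      have hf := hx' _ hnb
      have he := h2 _ hε
      obtain ⟨n, hn1, hn2⟩ := (hf.and_eventually he).exists
      simp only [Set.mem_Ioi] at hn1
      linarith
  · rintro ⟨hB, hC⟩
    show MapClusterPt x atTop (fun n : ℕ => delta a n)
    rw [mapClusterPt_iff_frequently]
    intro s hs
    obtain ⟨ε, hε, hball⟩ := Metric.mem_nhds_iff.mp hs
    rw [frequently_atTop]
    intro n0
    -- choose a start n1 with delta ≥ x - ε/2, then a later index with delta ≤ x + ε/2
    obtain ⟨K, hK⟩ := exists_nat_gt (1 / (ε / 2))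
    have hε2 : 0 < ε / 2 := by linarith
    obtain ⟨n1, hn1, hd1⟩ := (frequently_atTop.mp (h4 (ε / 2) hε2)) (max n0 (K + 1))
    obtain ⟨n2, hn2, hd2⟩ := (frequently_atTop.mp (h3 (ε / 2) hε2)) n1
    have hd1' : x - ε / 2 ≤ delta a n1 := by linarith
    have hd2' : delta a n2 ≤ x + ε / 2 := by linarith
    -- first index ≥ n1 with delta ≤ x + ε/2
    have hex : ∃ k, delta a (n1 + k) ≤ x + ε / 2 := ⟨n2 - n1, by
      have : n1 + (n2 - n1) = n2 := by omega
      rw [this]; exact hd2'⟩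
    classical
    let k := Nat.find hex
    have hk : delta a (n1 + k) ≤ x + ε / 2 := Nat.find_spec hex
    have hkmin : ∀ j, j < k → ¬ delta a (n1 + j) ≤ x + ε / 2 := fun j hj => Nat.find_min hex hj
    refine ⟨n1 + k, by omega, ?_⟩
    apply hball
    rw [Metric.mem_ball, Real.dist_eq, abs_lt]
    constructor
    · rcases Nat.eq_zero_or_pos k with h0 | hpos
      · rw [h0, Nat.add_zero]; linarith
      · have h5 := hkmin (k - 1) (by omega)
        push Not at h5
        have h6 := delta_succ_ge hN a (n1 + (k - 1)) (by omega)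
        have h7 : n1 + (k - 1) + 1 = n1 + k := by omega
        rw [h7] at h6
        have h8 : (1 : ℝ) / ((n1 + (k - 1) : ℕ) : ℝ) < ε / 2 := by
          have hpos' : (0 : ℝ) < ((n1 + (k - 1) : ℕ) : ℝ) := by
            have : 0 < n1 + (k - 1) := by omega
            exact_mod_cast this
          refine (div_lt_comm₀ hpos' hε2).mpr (lt_of_lt_of_le hK ?_)
          have : K ≤ n1 + (k - 1) := by omega
          exact_mod_cast this
        linarith
    · linarith

end NAdicCx
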