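import Mathlib
import Pool.Agent.NAdicCx.Lattice

/-!
# Assertion (a) fails when N is not a prime power
-/

namespace NAdicCx

open Filter

variable {N : ℕ}

/-- Every compatible sequence of residues is given by the truncations of a sequence of digits. -/
lemma exists_seq (hN : 2 ≤ N) (X : ℕ → ℤ) (hX : ∀ n, (N : ℤ) ^ n ∣ X (n + 1) - X n) :
    ∃ a : ℕ → Fin N, ∀ n, (N : ℤ) ^ n ∣ X n - trunc a n := by
  have hN0 : (0 : ℤ) < N := by exact_mod_cast (by omega : 0 < N)
  have hlt : ∀ n, ((X (n + 1) / (N : ℤ) ^ n) % N).toNat < N := by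
    intro n
    have h1 := Int.emod_nonneg (X (n + 1) / (N : ℤ) ^ n) (ne_of_gt hN0)
    have h2 := Int.emod_lt_of_pos (X (n + 1) / (N : ℤ) ^ n) hN0
    have : (((X (n + 1) / (N : ℤ) ^ n) % N).toNat : ℤ) < N := by
      rw [Int.toNat_of_nonneg h1]; exact h2
    exact_mod_cast this
  let a : ℕ → Fin N := fun n => ⟨((X (n + 1) / (N : ℤ) ^ n) % N).toNat, hlt n⟩
  have ha : ∀ n, ((a n : ℕ) : ℤ) = (X (n + 1) / (N : ℤ) ^ n) % N := by
    intro n
    show ((((X (n + 1) / (N : ℤ) ^ n) % N).toNat : ℕ) : ℤ) = _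
    rw [Int.toNat_of_nonneg (Int.emod_nonneg _ (ne_of_gt hN0))]
  refine ⟨a, ?_⟩
  have key : ∀ n, trunc a n = X n % (N : ℤ) ^ n := by
    intro n
    induction n with
    | zero => simp [trunc]
    | succ n ih =>
      rw [trunc_succ, ih, ha]
      have hpos : (0 : ℤ) < (N : ℤ) ^ n := by positivity
      have h1 : X n % (N : ℤ) ^ n = X (n + 1) % (N : ℤ) ^ n :=
        Int.modEq_iff_dvd.mpr (hX n)
      rw [h1, pow_succ]
      have h2 := Int.emod_add_mul_ediv (X (n + 1)) ((N : ℤ) ^ n)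
      have h3 := Int.emod_add_mul_ediv (X (n + 1) / (N : ℤ) ^ n) (N : ℤ)
      set r := X (n + 1) % (N : ℤ) ^ n with hr
      set q := X (n + 1) / (N : ℤ) ^ n with hq
      have hr0 : 0 ≤ r := Int.emod_nonneg _ (ne_of_gt hpos)
      have hr1 : r < (N : ℤ) ^ n := Int.emod_lt_of_pos _ hpos
      have hs0 : 0 ≤ q % N := Int.emod_nonneg _ (ne_of_gt hN0)
      have hs1 : q % N < N := Int.emod_lt_of_pos _ hN0
      have h4 : X (n + 1) = (r + q % N * (N : ℤ) ^ n) + (N : ℤ) ^ n * N * (q / N) := by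
        rw [← h2]
        conv_lhs => rw [← h3]
        ring
      symm
      rw [h4, Int.add_mul_emod_self_left]
      apply Int.emod_eq_of_lt
      · positivity
      · nlinarith
  intro n
  rw [key n]
  exact Int.dvd_self_sub_emod

lemma exists_coprime_factor (hN : 2 ≤ N) (h : ¬ IsPrimePow N) :
    ∃ P M : ℕ, 2 ≤ P ∧ 2 ≤ M ∧ Nat.Coprime P M ∧ P * M = N := by
  obtain ⟨p, hp⟩ : ∃ p, p = N.minFac := ⟨_, rfl⟩
  have hprime : p.Prime := hp ▸ Nat.minFac_prime (by omega)
  have hdvd : p ∣ N := hp ▸ Nat.minFac_dvd N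
  have h1 := isPrimePow_iff_minFac_pow_factorization_eq (n := N) (by omega)
  rw [← hp] at h1
  have h2 : p ^ N.factorization p ≠ N := fun h3 => h (h1.mpr h3)
  have hmul : p ^ N.factorization p * (N / p ^ N.factorization p) = N :=
    Nat.ordProj_mul_ordCompl_eq_self N p
  have hf : 1 ≤ N.factorization p := (hprime.dvd_iff_one_le_factorization (by omega)).mp hdvd
  refine ⟨p ^ N.factorization p, N / p ^ N.factorization p, ?_, ?_, ?_, hmul⟩
  · calc 2 ≤ p := hprime.two_le
      _ = p ^ 1 := (pow_one p).symm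
      _ ≤ _ := Nat.pow_le_pow_right hprime.pos hf
  · by_contra hlt
    generalize N / p ^ N.factorization p = q at hmul hlt
    have h3 : q = 0 ∨ q = 1 := by omega
    rcases h3 with h3 | h3
    · rw [h3, mul_zero] at hmul; omega
    · rw [h3, mul_one] at hmul; exact h2 hmul
  · exact Nat.Coprime.pow_left _ (Nat.coprime_ordCompl hprime (by omega))

/-- For `N = P M` with coprime `P, M ≥ 2` there is a sequence that is not eventually periodic
and whose normalised complexity tends to `log_N max(P, M) > 1/2`. -/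
lemma counterexample {P M : ℕ} (hP : 2 ≤ P) (hM : 2 ≤ M) (hc : Nat.Coprime P M)
    (hPM : P * M = N) :
    ∃ a : ℕ → Fin N, ¬ EvPeriodic a ∧
      accSet a = {Real.logb N (max P M : ℕ)} ∧ (1 / 2 : ℝ) < Real.logb N (max P M : ℕ) := by
  have hN : 2 ≤ N := by nlinarith
  have hN1 : (1 : ℝ) < N := by exact_mod_cast (by omega : 1 < N)
  have hcZ : IsCoprime (P : ℤ) (M : ℤ) := Nat.isCoprime_iff_coprime.mpr hc
  have hNZ : (N : ℤ) = P * M := by exact_mod_cast hPM.symm
  -- the idempotent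
  have hX : ∀ n : ℕ, ∃ x : ℤ, (P : ℤ) ^ n ∣ x - 1 ∧ (M : ℤ) ^ n ∣ x := by
    intro n
    obtain ⟨s, t, hst⟩ := (hcZ.pow (m := n) (n := n))
    refine ⟨t * (M : ℤ) ^ n, ⟨-s, ?_⟩, Dvd.intro_left _ rfl⟩
    linarith
  choose X hX1 hX2 using hX
  have hcompat : ∀ n, (N : ℤ) ^ n ∣ X (n + 1) - X n := by
    intro n
    rw [hNZ, mul_pow]
    apply (hcZ.pow (m := n) (n := n)).mul_dvd
    · have h1 : (P : ℤ) ^ n ∣ X (n + 1) - 1 := (pow_dvd_pow _ (Nat.le_succ n)).trans (hX1 (n + 1))
      have h2 : X (n + 1) - X n = (X (n + 1) - 1) - (X n - 1) := by ring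
      rw [h2]
      exact dvd_sub h1 (hX1 n)
    · exact dvd_sub ((pow_dvd_pow _ (Nat.le_succ n)).trans (hX2 (n + 1))) (hX2 n)
  obtain ⟨a, ha⟩ := exists_seq hN X hcompat
  have hA1 : ∀ n, (P : ℤ) ^ n ∣ trunc a n - 1 := by
    intro n
    have h1 : (P : ℤ) ^ n ∣ X n - trunc a n := by
      refine dvd_trans ?_ (ha n)
      rw [hNZ, mul_pow]
      exact dvd_mul_right _ _
    have h2 : trunc a n - 1 = (X n - 1) - (X n - trunc a n) := by ring
    rw [h2]
    exact dvd_sub (hX1 n) h1
  have hA2 : ∀ n, (M : ℤ) ^ n ∣ trunc a n := by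
    intro n
    have h1 : (M : ℤ) ^ n ∣ X n - trunc a n := by
      refine dvd_trans ?_ (ha n)
      rw [hNZ, mul_pow]
      exact dvd_mul_left _ _
    have h2 : trunc a n = X n - (X n - trunc a n) := by ring
    rw [h2]
    exact dvd_sub (hX2 n) h1
  -- upper bound
  have hup : ∀ n, Lam a n ≤ (max P M) ^ n := by
    intro n
    rcases Nat.eq_zero_or_pos n with h0 | hpos
    · subst h0
      have := Lam_le_pow hN a 0
      simpa using this
    have hcop : IsCoprime ((M : ℤ) ^ n - (P : ℤ) ^ n) (N : ℤ) := by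
      rw [hNZ]
      apply IsCoprime.mul_right
      · have h1 : IsCoprime ((M : ℤ) ^ n) (P : ℤ) := (hcZ.symm).pow_left
        have h2 : (M : ℤ) ^ n - (P : ℤ) ^ n = (M : ℤ) ^ n + (P : ℤ) * (-(P : ℤ) ^ (n - 1)) := by
          obtain ⟨k, rfl⟩ : ∃ k, n = k + 1 := ⟨n - 1, by omega⟩
          simp only [Nat.add_sub_cancel]
          ring
        rw [h2]
        exact h1.add_mul_left_left _
      · have h1 : IsCoprime (-(P : ℤ) ^ n) (M : ℤ) := (hcZ.pow_left).neg_left
        have h2 : (M : ℤ) ^ n - (P : ℤ) ^ n = -(P : ℤ) ^ n + (M : ℤ) * ((M : ℤ) ^ (n - 1)) := by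
          obtain ⟨k, rfl⟩ : ∃ k, n = k + 1 := ⟨n - 1, by omega⟩
          simp only [Nat.add_sub_cancel]
          ring
        rw [h2]
        exact h1.add_mul_left_left _
    have hlat : Lat a n ((M : ℤ) ^ n) ((M : ℤ) ^ n - (P : ℤ) ^ n) := by
      unfold Lat
      rw [hNZ, mul_pow]
      apply (hcZ.pow (m := n) (n := n)).mul_dvd
      · have h2 : ((M : ℤ) ^ n - (P : ℤ) ^ n) * trunc a n - (M : ℤ) ^ n
          = (M : ℤ) ^ n * (trunc a n - 1) - (P : ℤ) ^ n * trunc a n := by ring
        rw [h2]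
        exact dvd_sub (Dvd.dvd.mul_left (hA1 n) _) (dvd_mul_right _ _)
      · exact dvd_sub (Dvd.dvd.mul_left (hA2 n) _) (dvd_refl _)
    have h1 := Lam_le hcop hlat
    have h2 : (0 : ℤ) ≤ (M : ℤ) ^ n := by positivity
    have h3 : (0 : ℤ) ≤ (P : ℤ) ^ n := by positivity
    rcases le_total P M with h4 | h4
    · rw [max_eq_right h4]
      have h5 : (P : ℤ) ^ n ≤ (M : ℤ) ^ n := by
        have : P ^ n ≤ M ^ n := Nat.pow_le_pow_left h4 n
        exact_mod_cast this
      have h6 : max |(M : ℤ) ^ n| |(M : ℤ) ^ n - (P : ℤ) ^ n| ≤ (M : ℤ) ^ n := by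
        rw [abs_of_nonneg h2]
        apply max_le le_rfl
        rw [abs_le]
        constructor <;> linarith
      have h7 := h1.trans h6
      exact_mod_cast h7
    · rw [max_eq_left h4]
      have h5 : (M : ℤ) ^ n ≤ (P : ℤ) ^ n := by
        have : M ^ n ≤ P ^ n := Nat.pow_le_pow_left h4 n
        exact_mod_cast this
      have h6 : max |(M : ℤ) ^ n| |(M : ℤ) ^ n - (P : ℤ) ^ n| ≤ (P : ℤ) ^ n := by
        rw [abs_of_nonneg h2]
        apply max_le h5
        rw [abs_le]
        constructor <;> linarith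
      have h7 := h1.trans h6
      exact_mod_cast h7
  -- lower bound
  have hlow : ∀ n, 1 ≤ n → (max P M) ^ n ≤ 2 * Lam a n := by
    intro n hn
    obtain ⟨u, g, hg, hl, h⟩ := Lam_spec a n
    have hgP : IsCoprime g (P : ℤ) := by
      rw [hNZ] at hg; exact hg.of_mul_right_left
    have hgM : IsCoprime g (M : ℤ) := by
      rw [hNZ] at hg; exact hg.of_mul_right_right
    have hlP : (P : ℤ) ^ n ∣ g * trunc a n - u := by
      refine dvd_trans ?_ hl
      rw [hNZ, mul_pow]
      exact dvd_mul_right _ _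
    have hlM : (M : ℤ) ^ n ∣ g * trunc a n - u := by
      refine dvd_trans ?_ hl
      rw [hNZ, mul_pow]
      exact dvd_mul_left _ _
    have hu : (M : ℤ) ^ n ∣ u := by
      have h1 : u = g * trunc a n - (g * trunc a n - u) := by ring
      rw [h1]
      exact dvd_sub (Dvd.dvd.mul_left (hA2 n) _) hlM
    have hgu : (P : ℤ) ^ n ∣ g - u := by
      have h1 : g - u = (g * trunc a n - u) - g * (trunc a n - 1) := by ring
      rw [h1]
      exact dvd_sub hlP (Dvd.dvd.mul_left (hA1 n) _)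
    have hnotunit : ∀ Q : ℕ, 2 ≤ Q → ¬ IsUnit (Q : ℤ) := by
      intro Q hQ hunit
      rw [Int.isUnit_iff] at hunit
      rcases hunit with h1 | h1
      · have : Q = 1 := by exact_mod_cast h1
        omega
      · have : (0 : ℤ) ≤ Q := by positivity
        omega
    have hu0 : u ≠ 0 := by
      rintro rfl
      have h1 : (P : ℤ) ∣ g := by
        have h2 : (P : ℤ) ^ n ∣ g := by simpa using hgu
        exact (dvd_pow_self _ (by omega)).trans h2
      exact hnotunit P hP (hgP.isUnit_of_dvd' h1 (dvd_refl _))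
    have hgu0 : g - u ≠ 0 := by
      intro h0
      have h1 : g = u := by linarith
      have h2 : (M : ℤ) ∣ g := by
        rw [h1]
        exact (dvd_pow_self _ (by omega)).trans hu
      exact hnotunit M hM (hgM.isUnit_of_dvd' h2 (dvd_refl _))
    have hub : (M : ℤ) ^ n ≤ |u| := by
      have := Int.le_of_dvd (abs_pos.mpr hu0) ((dvd_abs _ _).mpr hu)
      exact this
    have hgub : (P : ℤ) ^ n ≤ |g - u| := by
      have := Int.le_of_dvd (abs_pos.mpr hgu0) ((dvd_abs _ _).mpr hgu)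
      exact this
    have h1 : |g - u| ≤ |g| + |u| := abs_sub g u
    have h2 : |u| ≤ Lam a n := by rw [h]; exact le_max_left _ _
    have h3 : |g| ≤ Lam a n := by rw [h]; exact le_max_right _ _
    rcases le_total P M with h4 | h4
    · rw [max_eq_right h4]
      have : ((M ^ n : ℕ) : ℤ) ≤ ((2 * Lam a n : ℕ) : ℤ) := by
        push_cast
        have : (0 : ℤ) ≤ Lam a n := by positivity
        linarith
      exact_mod_cast this
    · rw [max_eq_left h4]
      have : ((P ^ n : ℕ) : ℤ) ≤ ((2 * Lam a n : ℕ) : ℤ) := by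
        push_cast
        linarith
      exact_mod_cast this
  set Q : ℕ := max P M with hQ
  have hQ2 : 2 ≤ Q := le_trans hP (le_max_left _ _)
  have hQ0 : (0 : ℝ) < Q := by exact_mod_cast (by omega : 0 < Q)
  refine ⟨a, ?_, ?_, ?_⟩
  · intro hper
    obtain ⟨u, g, hg, hrep⟩ := represents_of_evPeriodic hper
    -- Lam is bounded by a constant
    obtain ⟨n, hn⟩ := pow_unbounded_of_one_lt (2 * max |u| |g|) (by norm_num : (1 : ℤ) < 2)
    have h1 := Lam_le hg (hrep (n + 1))
    have h2 := hlow (n + 1) (by omega)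
    have h3 : ((Q ^ (n + 1) : ℕ) : ℤ) ≤ ((2 * Lam a (n + 1) : ℕ) : ℤ) := by exact_mod_cast h2
    have h4 : (2 : ℤ) ^ (n + 1) ≤ (Q : ℤ) ^ (n + 1) := by
      have : 2 ^ (n + 1) ≤ Q ^ (n + 1) := Nat.pow_le_pow_left hQ2 _
      exact_mod_cast this
    push_cast at h3
    have h5 : (2 : ℤ) ^ n ≤ 2 ^ (n + 1) := pow_le_pow_right₀ (by norm_num) (by omega)
    linarith
  · rw [← Set.Icc_self (Real.logb N Q)]
    have hupR : ∀ n : ℕ, lam a n ≤ n * Real.logb N Q := by
      intro n
      rw [lam_eq hN, ← Real.logb_pow]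
      apply Real.logb_le_logb_of_le hN1
      · exact_mod_cast Lam_pos hN a n
      · exact_mod_cast hup n
    have hlowR : ∀ n : ℕ, 1 ≤ n → n * Real.logb N Q - 1 ≤ lam a n := by
      intro n hn
      rw [lam_eq hN, ← Real.logb_pow]
      have h1 : Real.logb N ((Q : ℝ) ^ n) ≤ Real.logb N (2 * Lam a n) := by
        apply Real.logb_le_logb_of_le hN1 (by positivity)
        exact_mod_cast hlow n hn
      have h2 : (0 : ℝ) < Lam a n := by exact_mod_cast Lam_pos hN a n
      rw [Real.logb_mul (by norm_num) (ne_of_gt h2)] at h1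
      have h3 : Real.logb N 2 ≤ 1 := by
        rw [← Real.logb_self_eq_one hN1]
        apply Real.logb_le_logb_of_le hN1 (by norm_num)
        exact_mod_cast hN
      linarith
    have hupD : ∀ n : ℕ, 1 ≤ n → delta a n ≤ Real.logb N Q := by
      intro n hn
      have hn0 : (0 : ℝ) < n := by exact_mod_cast hn
      unfold delta
      rw [div_le_iff₀ hn0]
      linarith [hupR n]
    have hlowD : ∀ n : ℕ, 1 ≤ n → Real.logb N Q - 1 / n ≤ delta a n := by
      intro n hn
      have hn0 : (0 : ℝ) < n := by exact_mod_cast hn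
      unfold delta
      rw [le_div_iff₀ hn0, sub_mul, one_div, inv_mul_cancel₀ (ne_of_gt hn0)]
      linarith [hlowR n hn]
    have hev1 : ∀ ε > 0, ∀ᶠ n in atTop, Real.logb N Q - ε ≤ delta a n := by
      intro ε hε
      obtain ⟨K, hK⟩ := exists_nat_gt (1 / ε)
      filter_upwards [eventually_ge_atTop (K + 1)] with n hn
      have hn1 : 1 ≤ n := by omega
      have hn0 : (0 : ℝ) < n := by exact_mod_cast hn1
      have h1 := hlowD n hn1
      have h2 : (1 : ℝ) / n ≤ ε := by
        rw [div_le_comm₀ hn0 hε]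
        refine hK.le.trans ?_
        exact_mod_cast (by omega : K ≤ n)
      linarith
    have hev2 : ∀ ε > 0, ∀ᶠ n in atTop, delta a n ≤ Real.logb N Q + ε := by
      intro ε hε
      filter_upwards [eventually_ge_atTop 1] with n hn
      linarith [hupD n hn]
    exact accSet_eq_Icc hN a _ _ hev1 hev2 (fun ε hε => (hev2 ε hε).frequently)
      (fun ε hε => (hev1 ε hε).frequently)
  · have hne : P ≠ M := by
      rintro rfl
      have : P = 1 := (Nat.coprime_self P).mp hc
      omega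
    have h1 : N < Q ^ 2 := by
      rcases lt_or_gt_of_ne hne with h2 | h2
      · rw [hQ, max_eq_right h2.le]; nlinarith
      · rw [hQ, max_eq_left h2.le]; nlinarith
    have h2 : (1 : ℝ) < Real.logb N ((Q : ℝ) ^ 2) := by
      rw [← Real.logb_self_eq_one hN1]
      apply Real.logb_lt_logb hN1 (by linarith)
      exact_mod_cast h1
    rw [Real.logb_pow] at h2
    push_cast at h2
    linarith

/-- Assertion (a) fails for every `N ≥ 2` that is not a prime power. -/
lemma not_assertionA (hN : 2 ≤ N) (h : ¬ IsPrimePow N) : ¬ AssertionA N := by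
  obtain ⟨P, M, hP, hM, hc, hPM⟩ := exists_coprime_factor hN h
  obtain ⟨a, hper, hacc, hhalf⟩ := counterexample hP hM hc hPM
  intro hA
  obtain ⟨B, hB⟩ := hA a hper
  rw [hacc] at hB
  have h1 : Real.logb N (max P M : ℕ) ∈ Set.Icc B (1 - B) := by
    rw [← hB]; rfl
  have h2 : B ≤ 1 - B := h1.1.trans h1.2
  have h3 : B ∈ Set.Icc B (1 - B) := ⟨le_rfl, h2⟩
  rw [← hB] at h3
  have h4 : B = Real.logb N (max P M : ℕ) := h3
  linarith

end NAdicCx
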