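import Mathlib
import Pool.Agent.NAdicCx.Lattice

/-!
# Assertion (a) holds when N is a prime power
-/

namespace NAdicCx

open Filter

variable {N : ℕ}

/-- Two independent vectors have determinant at least `N^t`. -/
lemma sep {a : ℕ → Fin N} {t : ℕ} {u g u' g' : ℤ} (h1 : Lat a t u g)
    (h2 : ¬ Lat a (t + 1) u g) (hg' : IsCoprime g' (N : ℤ)) (h3 : Lat a (t + 1) u' g') :
    (N : ℤ) ^ t ≤ 2 * max |u| |g| * max |u'| |g'| := by
  have h4 : Lat a t u' g' := h3.mono (Nat.le_succ t)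
  have hdvd : (N : ℤ) ^ t ∣ u * g' - u' * g := by
    have h5 : u * g' - u' * g = g * (g' * trunc a t - u') - g' * (g * trunc a t - u) := by ring
    rw [h5]
    exact dvd_sub (Dvd.dvd.mul_left h4 _) (Dvd.dvd.mul_left h1 _)
  have hne : u * g' - u' * g ≠ 0 := by
    intro h0
    apply h2
    have h5 : (N : ℤ) ^ (t + 1) ∣ g' * (g * trunc a (t + 1) - u) := by
      have h6 : g' * (g * trunc a (t + 1) - u) = g * (g' * trunc a (t + 1) - u')
        - (u * g' - u' * g) := by ring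
      rw [h6, h0, sub_zero]
      exact Dvd.dvd.mul_left h3 _
    exact (isCoprime_pow hg' (t + 1)).symm.dvd_of_dvd_mul_left h5
  have h5 : (N : ℤ) ^ t ≤ |u * g' - u' * g| :=
    Int.le_of_dvd (abs_pos.mpr hne) ((dvd_abs _ _).mpr hdvd)
  have h6 : |u * g' - u' * g| ≤ |u| * |g'| + |u'| * |g| := by
    calc |u * g' - u' * g| ≤ |u * g'| + |u' * g| := abs_sub _ _
      _ = _ := by rw [abs_mul, abs_mul]
  have h7 : |u| * |g'| ≤ max |u| |g| * max |u'| |g'| :=
    mul_le_mul (le_max_left _ _) (le_max_right _ _) (abs_nonneg _)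
      (le_trans (abs_nonneg _) (le_max_left _ _))
  have h8 : |u'| * |g| ≤ max |u| |g| * max |u'| |g'| := by
    rw [mul_comm]
    exact mul_le_mul (le_max_right _ _) (le_max_left _ _) (abs_nonneg _)
      (le_trans (abs_nonneg _) (le_max_left _ _))
  linarith

/-- Reduction of a vector modulo another one. -/
lemma reduce_aux (u g u' g' q : ℤ) (hq : 0 < q) (hu : 0 < |u|) (hgu : |g| ≤ |u|) :
    ∃ c : ℤ, |u| * |u' + q * c * u| ≤ |u * g' - u' * g| + q * |u| ^ 2 ∧
      |u| * |g' + q * c * g| ≤ |u * g' - u' * g| + q * |u| ^ 2 := by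
  refine ⟨-(u' / (q * u)), ?_⟩
  have hu0 : u ≠ 0 := abs_pos.mp hu
  have hqu : q * u ≠ 0 := mul_ne_zero (ne_of_gt hq) hu0
  have h1 : u' + q * -(u' / (q * u)) * u = u' % (q * u) := by
    have := Int.emod_add_mul_ediv u' (q * u)
    linarith
  have h2 : 0 ≤ u' % (q * u) := Int.emod_nonneg _ hqu
  have h3 : u' % (q * u) < |q * u| := Int.emod_lt_abs _ hqu
  have h4 : |q * u| = q * |u| := by rw [abs_mul, abs_of_pos hq]
  set c := -(u' / (q * u)) with hc
  have h5 : |u' + q * c * u| ≤ q * |u| := by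
    rw [h1, abs_of_nonneg h2]
    linarith
  have h6 : u * (g' + q * c * g) = (u * g' - u' * g) + (u' + q * c * u) * g := by ring
  have h7 : |u| * |g' + q * c * g| ≤ |u * g' - u' * g| + |u' + q * c * u| * |g| := by
    rw [← abs_mul, h6, ← abs_mul]
    exact abs_add_le _ _
  have h8 : |u' + q * c * u| * |g| ≤ (q * |u|) * |u| :=
    mul_le_mul h5 hgu (abs_nonneg _) (by positivity)
  constructor
  · have h9 : |u| * |u' + q * c * u| ≤ |u| * (q * |u|) :=
      mul_le_mul_of_nonneg_left h5 (abs_nonneg _)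
    have h10 := abs_nonneg (u * g' - u' * g)
    nlinarith
  · nlinarith

lemma reduce (u g u' g' q : ℤ) (hq : 0 < q) (hpos : 0 < max |u| |g|) :
    ∃ c : ℤ, max |u| |g| * max |u' + q * c * u| |g' + q * c * g| ≤
      |u * g' - u' * g| + q * (max |u| |g|) ^ 2 := by
  rcases le_total |g| |u| with h | h
  · rw [max_eq_left h] at *
    obtain ⟨c, h1, h2⟩ := reduce_aux u g u' g' q hq hpos h
    refine ⟨c, ?_⟩
    rw [mul_max_of_nonneg _ _ (abs_nonneg u)]
    exact max_le h1 h2
  · rw [max_eq_right h] at *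
    obtain ⟨c, h1, h2⟩ := reduce_aux g u g' u' q hq hpos h
    refine ⟨c, ?_⟩
    rw [mul_max_of_nonneg _ _ (abs_nonneg g)]
    have h3 : |g * u' - g' * u| = |u * g' - u' * g| := by
      rw [← abs_neg]; congr 1; ring
    rw [h3] at h1 h2
    exact max_le h2 h1

/-- A short vector together with a complementary one. -/
lemma exists_short (hN : 2 ≤ N) (a : ℕ → Fin N) (n : ℕ) :
    ∃ u g u' g' : ℤ, 0 < max |u| |g| ∧ Lat a n u g ∧ Lat a n u' g' ∧
      u * g' - u' * g = (N : ℤ) ^ n ∧ IsCoprime g g' ∧ (max |u| |g|) ^ 2 ≤ (N : ℤ) ^ n := by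
  classical
  -- pigeonhole
  have hpig : ∃ u g : ℤ, 0 < max |u| |g| ∧ Lat a n u g ∧ (max |u| |g|) ^ 2 ≤ (N : ℤ) ^ n := by
    set s := Nat.sqrt (N ^ n) with hs
    have hNn : NeZero (N ^ n) := ⟨by positivity⟩
    let f : Fin (s + 1) × Fin (s + 1) → ZMod (N ^ n) := fun x =>
      (((x.1 : ℕ) : ℤ) : ZMod (N ^ n)) - ((trunc a n : ℤ) : ZMod (N ^ n)) *
        (((x.2 : ℕ) : ℤ) : ZMod (N ^ n))
    have hcard : Fintype.card (ZMod (N ^ n)) < Fintype.card (Fin (s + 1) × Fin (s + 1)) := by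
      rw [ZMod.card, Fintype.card_prod, Fintype.card_fin]
      exact Nat.lt_succ_sqrt (N ^ n)
    obtain ⟨x, y, hxy, hf⟩ := Fintype.exists_ne_map_eq_of_card_lt f hcard
    have hx1 : ((x.1 : ℕ) : ℤ) ≤ s := by exact_mod_cast Nat.lt_succ_iff.mp x.1.isLt
    have hx2 : ((x.2 : ℕ) : ℤ) ≤ s := by exact_mod_cast Nat.lt_succ_iff.mp x.2.isLt
    have hy1 : ((y.1 : ℕ) : ℤ) ≤ s := by exact_mod_cast Nat.lt_succ_iff.mp y.1.isLt
    have hy2 : ((y.2 : ℕ) : ℤ) ≤ s := by exact_mod_cast Nat.lt_succ_iff.mp y.2.isLt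
    have hx1' : (0 : ℤ) ≤ ((x.1 : ℕ) : ℤ) := by positivity
    have hx2' : (0 : ℤ) ≤ ((x.2 : ℕ) : ℤ) := by positivity
    have hy1' : (0 : ℤ) ≤ ((y.1 : ℕ) : ℤ) := by positivity
    have hy2' : (0 : ℤ) ≤ ((y.2 : ℕ) : ℤ) := by positivity
    refine ⟨((x.1 : ℕ) : ℤ) - ((y.1 : ℕ) : ℤ), ((x.2 : ℕ) : ℤ) - ((y.2 : ℕ) : ℤ), ?_, ?_, ?_⟩
    · by_contra hle
      push Not at hle
      have h1 := (le_max_left |((x.1 : ℕ) : ℤ) - ((y.1 : ℕ) : ℤ)|
        |((x.2 : ℕ) : ℤ) - ((y.2 : ℕ) : ℤ)|).trans hle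
      have h2 := (le_max_right |((x.1 : ℕ) : ℤ) - ((y.1 : ℕ) : ℤ)|
        |((x.2 : ℕ) : ℤ) - ((y.2 : ℕ) : ℤ)|).trans hle
      have h3 := abs_eq_zero.mp (le_antisymm h1 (abs_nonneg _))
      have h4 := abs_eq_zero.mp (le_antisymm h2 (abs_nonneg _))
      apply hxy
      apply Prod.ext
      · apply Fin.ext
        have : ((x.1 : ℕ) : ℤ) = ((y.1 : ℕ) : ℤ) := by linarith
        exact_mod_cast this
      · apply Fin.ext
        have : ((x.2 : ℕ) : ℤ) = ((y.2 : ℕ) : ℤ) := by linarith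
        exact_mod_cast this
    · unfold Lat
      have h1 : (((((x.2 : ℕ) : ℤ) - ((y.2 : ℕ) : ℤ)) * trunc a n
          - (((x.1 : ℕ) : ℤ) - ((y.1 : ℕ) : ℤ)) : ℤ) : ZMod (N ^ n)) = 0 := by
        have h2 : f x = f y := hf
        simp only [f] at h2
        push_cast at h2 ⊢
        linear_combination -h2
      have h3 := (ZMod.intCast_zmod_eq_zero_iff_dvd _ (N ^ n)).mp h1
      push_cast at h3
      exact h3
    · have h1 : max |((x.1 : ℕ) : ℤ) - ((y.1 : ℕ) : ℤ)| |((x.2 : ℕ) : ℤ) - ((y.2 : ℕ) : ℤ)|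
          ≤ s := by
        apply max_le <;> rw [abs_le] <;> constructor <;> linarith
      have h2 : (0 : ℤ) ≤ max |((x.1 : ℕ) : ℤ) - ((y.1 : ℕ) : ℤ)|
          |((x.2 : ℕ) : ℤ) - ((y.2 : ℕ) : ℤ)| := le_trans (abs_nonneg _) (le_max_left _ _)
      have h3 : ((s : ℤ)) ^ 2 ≤ (N : ℤ) ^ n := by
        have := Nat.sqrt_le' (N ^ n)
        exact_mod_cast this
      exact (pow_le_pow_left₀ h2 h1 2).trans h3
  -- minimal vector
  let S : Set ℕ := {m : ℕ | ∃ u g : ℤ, 0 < max |u| |g| ∧ Lat a n u g ∧ (m : ℤ) = max |u| |g|}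
  have hSne : S.Nonempty := by
    obtain ⟨u, g, h1, h2, -⟩ := hpig
    exact ⟨(max |u| |g|).toNat, u, g, h1, h2, Int.toNat_of_nonneg h1.le⟩
  obtain ⟨u, g, hpos, hl, hm⟩ : sInf S ∈ S := Nat.sInf_mem hSne
  have hmin : ∀ u' g' : ℤ, 0 < max |u'| |g'| → Lat a n u' g' → max |u| |g| ≤ max |u'| |g'| := by
    intro u' g' h1 h2
    have h3 : sInf S ≤ (max |u'| |g'|).toNat :=
      Nat.sInf_le ⟨u', g', h1, h2, Int.toNat_of_nonneg h1.le⟩
    have h4 : ((sInf S : ℕ) : ℤ) ≤ (((max |u'| |g'|).toNat : ℕ) : ℤ) := by exact_mod_cast h3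
    rw [Int.toNat_of_nonneg h1.le, hm] at h4
    exact h4
  obtain ⟨y, hy⟩ := hl
  -- gcd of g and y is one
  have hcop : IsCoprime g y := by
    rw [Int.isCoprime_iff_gcd_eq_one]
    have hne : g ≠ 0 ∨ y ≠ 0 := by
      by_contra h0
      push Not at h0
      obtain ⟨h1, h2⟩ := h0
      rw [h1, h2] at hy
      have h3 : u = 0 := by linarith
      rw [h3, h1] at hpos
      simp at hpos
    set d : ℕ := Int.gcd g y with hd
    have hdpos : 0 < d := by
      rcases hne with h1 | h1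
      · exact Int.gcd_pos_of_ne_zero_left y h1
      · exact Int.gcd_pos_of_ne_zero_right g h1
    obtain ⟨g', hg'⟩ : (d : ℤ) ∣ g := Int.gcd_dvd_left g y
    obtain ⟨y', hy'⟩ : (d : ℤ) ∣ y := Int.gcd_dvd_right g y
    have hu' : u = d * (g' * trunc a n - (N : ℤ) ^ n * y') := by
      have h1 : u = g * trunc a n - (N : ℤ) ^ n * y := by linarith
      rw [h1]
      conv_lhs => rw [hg', hy']
      ring
    have h1 : max |u| |g| = (d : ℤ) * max |g' * trunc a n - (N : ℤ) ^ n * y'| |g'| := by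
      conv_lhs => rw [hu', hg']
      rw [abs_mul, abs_mul, Nat.abs_cast, mul_max_of_nonneg _ _ (by positivity : (0:ℤ) ≤ d)]
    have h2 : 0 < max |g' * trunc a n - (N : ℤ) ^ n * y'| |g'| := by
      by_contra h3
      push Not at h3
      have h4 : max |u| |g| ≤ 0 := by
        rw [h1]
        exact mul_nonpos_of_nonneg_of_nonpos (by positivity) h3
      linarith
    have h3 := hmin (g' * trunc a n - (N : ℤ) ^ n * y') g' h2 (by
      unfold Lat
      exact ⟨y', by ring⟩)
    rw [h1] at h3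
    have h4 : (d : ℤ) ≤ 1 := by nlinarith
    have h5 : d ≤ 1 := by exact_mod_cast h4
    omega
  obtain ⟨s, t, hst⟩ := hcop
  refine ⟨u, g, -t * trunc a n - (N : ℤ) ^ n * s, -t, hpos, ⟨y, hy⟩, ⟨s, by ring⟩, ?_, ?_, ?_⟩
  · have h1 : u = g * trunc a n - (N : ℤ) ^ n * y := by linarith
    rw [h1]
    linear_combination ((N : ℤ) ^ n) * hst
  · exact ⟨s, -y, by linarith⟩
  · obtain ⟨u', g', h1, h2, h3⟩ := hpig
    exact (pow_le_pow_left₀ hpos.le (hmin u' g' h1 h2) 2).trans h3

/-- Removing the powers of `p` from a vector. -/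
lemma descend {p : ℕ} (A : ℤ) : ∀ (m : ℕ) (u g : ℤ), (p : ℤ) ^ m ∣ g * A - u →
    ∃ j : ℕ, j ≤ m ∧ ∃ u' g' : ℤ, u = (p : ℤ) ^ j * u' ∧ g = (p : ℤ) ^ j * g' ∧
      (p : ℤ) ^ (m - j) ∣ g' * A - u' ∧ (j = m ∨ ¬ (p : ℤ) ∣ g') := by
  intro m
  induction m with
  | zero =>
    intro u g h
    exact ⟨0, le_rfl, u, g, by simp, by simp, by simp, Or.inl rfl⟩
  | succ m ih =>
    intro u g h
    by_cases hpg : (p : ℤ) ∣ g
    · obtain ⟨g1, rfl⟩ := hpg
      have hpu : (p : ℤ) ∣ u := by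
        have h1 : (p : ℤ) ∣ (p : ℤ) * g1 * A - u := (dvd_pow_self _ (Nat.succ_ne_zero m)).trans h
        have h2 : u = (p : ℤ) * (g1 * A) - ((p : ℤ) * g1 * A - u) := by ring
        rw [h2]
        exact dvd_sub (dvd_mul_right _ _) h1
      obtain ⟨u1, rfl⟩ := hpu
      by_cases hp0 : (p : ℤ) = 0
      · refine ⟨m + 1, le_rfl, 0, 0, ?_, ?_, by simp, Or.inl rfl⟩ <;> simp [hp0]
      have h1 : (p : ℤ) ^ m ∣ g1 * A - u1 := by
        have h2 : (p : ℤ) * (p : ℤ) ^ m ∣ (p : ℤ) * (g1 * A - u1) := by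
          have h3 : (p : ℤ) * (g1 * A - u1) = (p : ℤ) * g1 * A - (p : ℤ) * u1 := by ring
          rw [h3, ← pow_succ']
          exact h
        exact (mul_dvd_mul_iff_left hp0).mp h2
      obtain ⟨j, hj, u', g', h2, h3, h4, h5⟩ := ih u1 g1 h1
      refine ⟨j + 1, by omega, u', g', ?_, ?_, ?_, ?_⟩
      · rw [h2]; ring
      · rw [h3]; ring
      · have : m + 1 - (j + 1) = m - j := by omega
        rw [this]; exact h4
      · rcases h5 with h5 | h5
        · left; omega
        · right; exact h5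
    · exact ⟨0, Nat.zero_le _, u, g, by simp, by simp, by simpa using h, Or.inr hpg⟩

lemma logb_two_le_one (hN : 2 ≤ N) : Real.logb N 2 ≤ 1 := by
  have hN1 : (1 : ℝ) < N := by exact_mod_cast (by omega : 1 < N)
  rw [← Real.logb_self_eq_one hN1]
  apply Real.logb_le_logb_of_le hN1 (by norm_num)
  exact_mod_cast hN

/-- After a small value of the complexity there is a large one (any `N`). -/
lemma frequently_high (hN : 2 ≤ N) {a : ℕ → Fin N} (hper : ¬ EvPeriodic a) {B : ℝ}
    (hB0 : 0 ≤ B) (hfreq : ∃ᶠ n in atTop, delta a n ≤ B) :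
    ∀ ε > 0, ∃ᶠ n in atTop, 1 - B - ε ≤ delta a n := by
  intro ε hε
  have hN1 : (1 : ℝ) < N := by exact_mod_cast (by omega : 1 < N)
  rw [frequently_atTop]
  intro n1
  obtain ⟨K, hK⟩ := exists_nat_gt (2 / ε)
  obtain ⟨n0, hn0, hd0⟩ := (frequently_atTop.mp hfreq) (max n1 (K + 1))
  obtain ⟨u, g, hg, hl, hLam⟩ := Lam_spec a n0
  have hex : ∃ n, ¬ Lat a n u g := by
    by_contra hcon
    push Not at hcon
    exact hper (evPeriodic_of_represents hN hg hcon)
  classical
  have hspec := Nat.find_spec hex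
  have hmin : ∀ m, m < Nat.find hex → Lat a m u g := fun m hm => by
    have := Nat.find_min hex hm
    push Not at this
    exact this
  have hgt : n0 < Nat.find hex := by
    by_contra hle
    push Not at hle
    exact hspec (hl.mono hle)
  obtain ⟨t, ht⟩ : ∃ t, Nat.find hex = t + 1 := ⟨Nat.find hex - 1, by omega⟩
  rw [ht] at hspec hgt
  have hlt : Lat a t u g := hmin t (by omega)
  refine ⟨t + 1, by omega, ?_⟩
  obtain ⟨u', g', hg', hl', hLam'⟩ := Lam_spec a (t + 1)
  have h1 := sep hlt hspec hg' hl'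
  rw [← hLam, ← hLam'] at h1
  have h2 : N ^ t ≤ 2 * Lam a n0 * Lam a (t + 1) := by exact_mod_cast h1
  have hp0 : (0 : ℝ) < Lam a n0 := by exact_mod_cast Lam_pos hN a n0
  have hp1 : (0 : ℝ) < Lam a (t + 1) := by exact_mod_cast Lam_pos hN a (t + 1)
  have h3 : Real.logb N ((N : ℝ) ^ t) ≤ Real.logb N (2 * Lam a n0 * Lam a (t + 1)) := by
    apply Real.logb_le_logb_of_le hN1 (by positivity)
    exact_mod_cast h2
  rw [Real.logb_pow, Real.logb_self_eq_one hN1, mul_one,
    Real.logb_mul (by positivity) (ne_of_gt hp1), Real.logb_mul (by norm_num) (ne_of_gt hp0),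
    ← lam_eq hN, ← lam_eq hN] at h3
  have h4 := logb_two_le_one hN
  have hn0pos : (0 : ℝ) < n0 := by
    have : 0 < n0 := by omega
    exact_mod_cast this
  have h5 : lam a n0 ≤ B * n0 := by
    unfold delta at hd0
    rwa [div_le_iff₀ hn0pos] at hd0
  have h6 : (n0 : ℝ) ≤ t := by
    have : n0 ≤ t := by omega
    exact_mod_cast this
  have h7 : B * n0 ≤ B * t := mul_le_mul_of_nonneg_left h6 hB0
  have ht1 : (0 : ℝ) < ((t + 1 : ℕ) : ℝ) := by positivity
  unfold delta
  rw [le_div_iff₀ ht1]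
  have h8 : 2 ≤ ε * ((t + 1 : ℕ) : ℝ) := by
    have h9 : (K : ℝ) ≤ ((t + 1 : ℕ) : ℝ) := by exact_mod_cast (by omega : K ≤ t + 1)
    have h10 : 2 / ε < ((t + 1 : ℕ) : ℝ) := lt_of_lt_of_le hK h9
    rw [div_lt_iff₀ hε] at h10
    linarith
  push_cast at h8 ⊢
  nlinarith

lemma logb_max_pos (hN : 2 ≤ N) {u g : ℤ} (h : 0 < max |u| |g|) :
    0 ≤ Real.logb N ((max |u| |g| : ℤ) : ℝ) := by
  have hN1 : (1 : ℝ) < N := by exact_mod_cast (by omega : 1 < N)
  apply Real.logb_nonneg hN1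
  exact_mod_cast h

/-- For prime powers `N = p^k`, short lattice vectors are not much shorter than the bound given by
the liminf of the complexity. -/
lemma short_lower {p k : ℕ} (hp : p.Prime) (hk : 0 < k) (hpk : p ^ k = N) {a : ℕ → Fin N}
    {B : ℝ} (hB0 : 0 ≤ B) (hB1 : B ≤ 1) {n0 : ℕ} (hlow : ∀ n : ℕ, B * n - n0 ≤ lam a n)
    {n : ℕ} {u g : ℤ} (hpos : 0 < max |u| |g|) (hl : Lat a n u g) :
    B * n - n0 - 1 ≤ Real.logb N ((max |u| |g| : ℤ) : ℝ) := by
  have hN : 2 ≤ N := by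
    rw [← hpk]
    calc 2 ≤ p := hp.two_le
      _ = p ^ 1 := (pow_one p).symm
      _ ≤ p ^ k := Nat.pow_le_pow_right hp.pos hk
  have hN1 : (1 : ℝ) < N := by exact_mod_cast (by omega : 1 < N)
  have hkR : (0 : ℝ) < k := by exact_mod_cast hk
  have hlogp : Real.logb N p = 1 / k := by
    have h1 : Real.logb N ((p : ℝ) ^ k) = 1 := by
      have : (p : ℝ) ^ k = N := by exact_mod_cast hpk
      rw [this, Real.logb_self_eq_one hN1]
    rw [Real.logb_pow] at h1
    field_simp
    linarith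
  have hNZ : (N : ℤ) = (p : ℤ) ^ k := by exact_mod_cast hpk.symm
  have hl' : (p : ℤ) ^ (k * n) ∣ g * trunc a n - u := by
    rw [pow_mul, ← hNZ]; exact hl
  obtain ⟨j, hj, u', g', hu, hg, hdvd, hor⟩ := descend (p := p) (trunc a n) (k * n) u g hl'
  have hpp : (0 : ℤ) < p := by exact_mod_cast hp.pos
  have hmax : max |u| |g| = (p : ℤ) ^ j * max |u'| |g'| := by
    rw [hu, hg, abs_mul, abs_mul, abs_of_nonneg (by positivity : (0 : ℤ) ≤ (p : ℤ) ^ j),
      mul_max_of_nonneg _ _ (by positivity : (0 : ℤ) ≤ (p : ℤ) ^ j)]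
  have hpos' : 0 < max |u'| |g'| := by
    rw [hmax] at hpos
    exact pos_of_mul_pos_right hpos (by positivity)
  have hlog : Real.logb N ((max |u| |g| : ℤ) : ℝ) = j / k +
      Real.logb N ((max |u'| |g'| : ℤ) : ℝ) := by
    rw [hmax, Int.cast_mul, Int.cast_pow, Int.cast_natCast, Real.logb_mul
      (by have := hp.pos; positivity) (by exact_mod_cast ne_of_gt hpos'), Real.logb_pow, hlogp]
    ring
  rw [hlog]
  have hn0 : (0 : ℝ) ≤ n0 := by positivity
  rcases hor with hjm | hndvd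
  · have h1 := logb_max_pos hN hpos'
    have h2 : ((j : ℝ)) / k = n := by
      rw [hjm]; push_cast; field_simp
    rw [h2]
    have h3 : (0 : ℝ) ≤ n := by positivity
    nlinarith
  · -- u', g' is a good vector at level (k n - j) / k
    set n' := (k * n - j) / k with hn'
    have hcop : IsCoprime g' (N : ℤ) := by
      rw [hNZ]
      apply IsCoprime.pow_right
      exact ((Nat.prime_iff_prime_int.mp hp).coprime_iff_not_dvd.mpr hndvd).symm
    have hkn' : k * n' ≤ k * n - j := Nat.mul_div_le _ _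
    have hn'n : n' ≤ n := by
      have : k * n' ≤ k * n := by omega
      exact Nat.le_of_mul_le_mul_left this hk
    have hlat : Lat a n' u' g' := by
      unfold Lat
      have h1 : (N : ℤ) ^ n' ∣ g' * trunc a n - u' := by
        rw [hNZ, ← pow_mul]
        exact (pow_dvd_pow _ hkn').trans hdvd
      have h2 : (N : ℤ) ^ n' ∣ g' * (trunc a n - trunc a n') :=
        Dvd.dvd.mul_left (trunc_mod a hn'n) _
      have h3 : g' * trunc a n' - u' = (g' * trunc a n - u') - g' * (trunc a n - trunc a n') := by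
        ring
      rw [h3]
      exact dvd_sub h1 h2
    have h1 := Lam_le hcop hlat
    have h2 : lam a n' ≤ Real.logb N ((max |u'| |g'| : ℤ) : ℝ) := by
      rw [lam_eq hN]
      apply Real.logb_le_logb_of_le hN1
      · exact_mod_cast Lam_pos hN a n'
      · exact_mod_cast h1
    have h3 := hlow n'
    have h4 : (k : ℝ) * n - j - k ≤ k * n' := by
      have h5 : k * n - j < k * (n' + 1) := by
        rw [hn']
        exact Nat.lt_mul_div_succ _ hk
      have h6 : k * n ≤ k * n' + k + j := by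
        rw [mul_add, mul_one] at h5
        omega
      have h7 : ((k * n : ℕ) : ℝ) ≤ ((k * n' + k + j : ℕ) : ℝ) := by exact_mod_cast h6
      push_cast at h7
      linarith
    have h5 : (n : ℝ) - j / k - 1 ≤ n' := by
      have h6 : (k : ℝ) * (n - j / k - 1) ≤ k * n' := by
        have : (k : ℝ) * (n - j / k - 1) = k * n - j - k := by field_simp
        rw [this]; exact h4
      exact le_of_mul_le_mul_left h6 hkR
    have h6 : (0 : ℝ) ≤ j / k := by positivity
    have h7 : B * (n - j / k - 1) ≤ B * n' := mul_le_mul_of_nonneg_left h5 hB0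
    nlinarith

/-- For prime powers `N`, the upper bound on the complexity. -/
lemma lam_upper {p k : ℕ} (hp : p.Prime) (hk : 0 < k) (hpk : p ^ k = N) {a : ℕ → Fin N}
    {B : ℝ} (hB0 : 0 ≤ B) (hB1 : B ≤ 1) {n0 : ℕ} (hlow : ∀ n : ℕ, B * n - n0 ≤ lam a n)
    (n : ℕ) : lam a n ≤ n - B * n + n0 + 2 := by
  have hN : 2 ≤ N := by
    rw [← hpk]
    calc 2 ≤ p := hp.two_le
      _ = p ^ 1 := (pow_one p).symm
      _ ≤ p ^ k := Nat.pow_le_pow_right hp.pos hk
  have hN1 : (1 : ℝ) < N := by exact_mod_cast (by omega : 1 < N)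
  have hNZ : (N : ℤ) = (p : ℤ) ^ k := by exact_mod_cast hpk.symm
  obtain ⟨u, g, u', g', hpos, hl, hl', hdet, hcop, hsq⟩ := exists_short hN a n
  have hlower := short_lower hp hk hpk hB0 hB1 hlow hpos hl
  -- a coprime vector w with |v| |w| ≤ 2 N^n
  have hw : ∃ u'' g'' : ℤ, IsCoprime g'' (N : ℤ) ∧ Lat a n u'' g'' ∧
      max |u| |g| * max |u''| |g''| ≤ 2 * (N : ℤ) ^ n := by
    by_cases hpg : (p : ℤ) ∣ g
    · obtain ⟨c, hc⟩ := reduce u g u' g' 1 one_pos hpos
      refine ⟨u' + 1 * c * u, g' + 1 * c * g, ?_, ?_, ?_⟩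
      · rw [hNZ]
        apply IsCoprime.pow_right
        refine ((Nat.prime_iff_prime_int.mp hp).coprime_iff_not_dvd.mpr ?_).symm
        intro hdvd
        have h1 : (p : ℤ) ∣ g' := by
          have h2 : g' = (g' + 1 * c * g) - c * g := by ring
          rw [h2]
          exact dvd_sub hdvd (Dvd.dvd.mul_left hpg _)
        have h2 := hcop.isUnit_of_dvd' hpg h1
        exact (Nat.prime_iff_prime_int.mp hp).not_isUnit h2
      · unfold Lat at *
        have h1 : (g' + 1 * c * g) * trunc a n - (u' + 1 * c * u)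
            = (g' * trunc a n - u') + c * (g * trunc a n - u) := by ring
        rw [h1]
        exact dvd_add hl' (Dvd.dvd.mul_left hl _)
      · rw [hdet, abs_of_nonneg (by positivity : (0 : ℤ) ≤ (N : ℤ) ^ n)] at hc
        linarith
    · refine ⟨u, g, ?_, hl, ?_⟩
      · rw [hNZ]
        apply IsCoprime.pow_right
        exact ((Nat.prime_iff_prime_int.mp hp).coprime_iff_not_dvd.mpr hpg).symm
      · have : (0 : ℤ) ≤ (N : ℤ) ^ n := by positivity
        nlinarith
  obtain ⟨u'', g'', hg'', hl'', hprod⟩ := hw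
  have hpos'' : 0 < max |u''| |g''| := by
    have : 1 ≤ |g''| := Int.one_le_abs (ne_zero_of_coprime hN hg'')
    exact lt_of_lt_of_le one_pos (this.trans (le_max_right _ _))
  have h1 := Lam_le hg'' hl''
  have h2 : lam a n ≤ Real.logb N ((max |u''| |g''| : ℤ) : ℝ) := by
    rw [lam_eq hN]
    apply Real.logb_le_logb_of_le hN1
    · exact_mod_cast Lam_pos hN a n
    · exact_mod_cast h1
  have h3 : Real.logb N (((max |u| |g| : ℤ) : ℝ) * ((max |u''| |g''| : ℤ) : ℝ)) ≤
      Real.logb N (2 * (N : ℝ) ^ n) := by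
    apply Real.logb_le_logb_of_le hN1
    · have h4 : (0 : ℝ) < ((max |u| |g| : ℤ) : ℝ) := by exact_mod_cast hpos
      have h5 : (0 : ℝ) < ((max |u''| |g''| : ℤ) : ℝ) := by exact_mod_cast hpos''
      positivity
    · exact_mod_cast hprod
  rw [Real.logb_mul (by exact_mod_cast ne_of_gt hpos) (by exact_mod_cast ne_of_gt hpos''),
    Real.logb_mul (by norm_num) (by positivity), Real.logb_pow, Real.logb_self_eq_one hN1,
    mul_one] at h3
  have h4 := logb_two_le_one hN
  linarith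

/-- Assertion (a) for prime powers: the set of accumulation points is `[B, 1 - B]` with
`B = liminf δ_n`. -/
theorem accSet_of_primePow (hpp : IsPrimePow N) (a : ℕ → Fin N) (hper : ¬ EvPeriodic a) :
    accSet a = Set.Icc (liminf (fun n => delta a n) atTop)
      (1 - liminf (fun n => delta a n) atTop) := by
  obtain ⟨p, k, hp, hk, hpk⟩ := hpp
  have hp' : p.Prime := Nat.prime_iff.mpr hp
  have hN : 2 ≤ N := by
    rw [← hpk]
    calc 2 ≤ p := hp'.two_le
      _ = p ^ 1 := (pow_one p).symm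
      _ ≤ p ^ k := Nat.pow_le_pow_right hp'.pos hk
  set B := liminf (fun n => delta a n) atTop with hB
  have hbdd : IsBoundedUnder (· ≥ ·) atTop (fun n => delta a n) :=
    isBoundedUnder_of ⟨0, fun n => delta_nonneg hN a n⟩
  have hbdd' : IsBoundedUnder (· ≤ ·) atTop (fun n => delta a n) :=
    isBoundedUnder_of ⟨1, fun n => delta_le_one hN a n⟩
  have hcob : IsCoboundedUnder (· ≥ ·) atTop (fun n => delta a n) :=
    hbdd'.isCoboundedUnder_ge
  have h1 : ∀ ε > 0, ∀ᶠ n in atTop, B - ε ≤ delta a n := by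
    intro ε hε
    have h2 := eventually_lt_of_lt_liminf (show B - ε < liminf (fun n => delta a n) atTop by
      rw [← hB]; linarith) hbdd
    filter_upwards [h2] with n hn
    exact hn.le
  have h3 : ∀ ε > 0, ∃ᶠ n in atTop, delta a n ≤ B + ε := by
    intro ε hε
    have h2 := frequently_lt_of_liminf_lt hcob (show liminf (fun n => delta a n) atTop < B + ε by
      rw [← hB]; linarith)
    exact h2.mono (fun n hn => hn.le)
  have hB0 : 0 ≤ B := by
    by_contra hlt
    push Not at hlt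
    obtain ⟨n, hn⟩ := (h3 (-B / 2) (by linarith)).exists
    have := delta_nonneg hN a n
    linarith
  have hB1 : B ≤ 1 := by
    by_contra hlt
    push Not at hlt
    obtain ⟨n, hn⟩ := (h1 ((B - 1) / 2) (by linarith)).exists
    have := delta_le_one hN a n
    linarith
  apply accSet_eq_Icc hN a _ _ h1 _ h3 _
  · -- upper bound
    intro ε hε
    set B' := max (B - ε / 2) 0 with hB'
    have hB'0 : 0 ≤ B' := le_max_right _ _
    have hB'1 : B' ≤ 1 := max_le (by linarith) (by norm_num)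
    obtain ⟨n0, hn0⟩ := eventually_atTop.mp (h1 (ε / 2) (by linarith))
    have hlow : ∀ n : ℕ, B' * n - n0 ≤ lam a n := by
      intro n
      have hlam := lam_nonneg hN a n
      rcases Nat.lt_or_ge n (n0 + 1) with h | h
      · have h4 : (n : ℝ) ≤ n0 := by exact_mod_cast Nat.lt_succ_iff.mp h
        have h5 : (0 : ℝ) ≤ n := by positivity
        nlinarith
      · have h4 : (0 : ℝ) < n := by exact_mod_cast (by omega : 0 < n)
        have h5 := hn0 n (by omega)
        have h6 : B' ≤ delta a n := max_le h5 (delta_nonneg hN a n)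
        unfold delta at h6
        rw [le_div_iff₀ h4] at h6
        have h7 : (0 : ℝ) ≤ n0 := by positivity
        linarith
    have hup := lam_upper hp' hk hpk hB'0 hB'1 hlow
    obtain ⟨K, hK⟩ := exists_nat_gt ((n0 + 2) / (ε / 2))
    filter_upwards [eventually_ge_atTop (K + 1)] with n hn
    have h4 : (0 : ℝ) < n := by exact_mod_cast (by omega : 0 < n)
    have h5 := hup n
    unfold delta
    rw [div_le_iff₀ h4]
    have h6 : B - ε / 2 ≤ B' := le_max_left _ _
    have h7 : (n0 : ℝ) + 2 ≤ ε / 2 * n := by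
      rw [div_lt_iff₀ (by linarith)] at hK
      have h8 : (K : ℝ) ≤ n := by exact_mod_cast (by omega : K ≤ n)
      nlinarith
    nlinarith
  · intro ε hε
    have h4 := frequently_high hN hper (B := B + ε / 2) (by linarith) (h3 (ε / 2) (by linarith))
      (ε / 2) (by linarith)
    exact h4.mono (fun n hn => by linarith)

lemma assertionA_of_isPrimePow (hpp : IsPrimePow N) : AssertionA N :=
  fun a hper => ⟨_, accSet_of_primePow hpp a hper⟩

end NAdicCx
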