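import Mathlib
import Pool.Agent.NAdicCx.PartA
import Pool.Agent.NAdicCx.Counter

/-!
# Assertion (b) holds for every N ≥ 2
-/

namespace NAdicCx

open Filter

variable {N : ℕ}

/-- State of the construction after `n` digits: a residue `A` modulo `N^n` and a fraction
`u / g` in lowest terms with denominator coprime to `N` and congruent to `A` modulo `N^n`. -/
structure St (N n : ℕ) where
  A : ℤ
  u : ℤ
  g : ℤ
  lat : (N : ℤ) ^ n ∣ g * A - u
  cop : IsCoprime u g
  copN : IsCoprime g (N : ℤ)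

/-- The norm of the current vector. -/
def St.m {N n : ℕ} (s : St N n) : ℤ := max |s.u| |s.g|

lemma keep_step (n : ℕ) (A u g : ℤ) (h : (N : ℤ) ^ n ∣ g * A - u)
    (hg : IsCoprime g (N : ℤ)) :
    ∃ A' : ℤ, (N : ℤ) ^ n ∣ A' - A ∧ (N : ℤ) ^ (n + 1) ∣ g * A' - u := by
  obtain ⟨y, hy⟩ := h
  obtain ⟨s, t, hst⟩ := hg
  refine ⟨A - (N : ℤ) ^ n * (s * y), ⟨-(s * y), by ring⟩, ⟨y * t, ?_⟩⟩
  have h1 : g * (A - (N : ℤ) ^ n * (s * y)) - u = (g * A - u) - (N : ℤ) ^ n * y * (s * g) := by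
    ring
  have h2 : s * g = 1 - t * N := by linarith
  rw [h1, hy, h2, pow_succ]
  ring

lemma kill_step (hN : 2 ≤ N) (n : ℕ) (A u g : ℤ) (h : (N : ℤ) ^ n ∣ g * A - u)
    (hug : IsCoprime u g) (hg : IsCoprime g (N : ℤ)) :
    ∃ A' u' g' : ℤ, (N : ℤ) ^ n ∣ A' - A ∧ (N : ℤ) ^ (n + 1) ∣ g' * A' - u' ∧
      IsCoprime u' g' ∧ IsCoprime g' (N : ℤ) ∧ u * g' - u' * g = (N : ℤ) ^ n ∧
      max |u| |g| * max |u'| |g'| ≤ (N : ℤ) ^ n + N * (max |u| |g|) ^ 2 := by
  have hN0 : (0 : ℤ) < N := by exact_mod_cast (by omega : 0 < N)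
  have hpos : 0 < max |u| |g| :=
    lt_of_lt_of_le (abs_pos.mpr (ne_zero_of_coprime hN hg)) (le_max_right _ _)
  obtain ⟨s, t, hst⟩ := hug
  obtain ⟨σ, τ, hστ⟩ := hg
  -- first vector with determinant N^n and g' ≡ 1 mod N
  set c0 : ℤ := (1 - s * (N : ℤ) ^ n) * σ with hc0
  set u1 : ℤ := -t * (N : ℤ) ^ n + c0 * u with hu1
  set g1 : ℤ := s * (N : ℤ) ^ n + c0 * g with hg1
  have hdet1 : u * g1 - u1 * g = (N : ℤ) ^ n := by
    rw [hu1, hg1]
    linear_combination ((N : ℤ) ^ n) * hst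
  have hg1mod : (N : ℤ) ∣ g1 - 1 := by
    refine ⟨-((1 - s * (N : ℤ) ^ n) * τ), ?_⟩
    rw [hg1, hc0]
    linear_combination (1 - s * (N : ℤ) ^ n) * hστ
  obtain ⟨c, hc⟩ := reduce u g u1 g1 N hN0 hpos
  set u2 : ℤ := u1 + N * c * u with hu2
  set g2 : ℤ := g1 + N * c * g with hg2
  have hdet2 : u * g2 - u2 * g = (N : ℤ) ^ n := by
    rw [hu2, hg2]
    linear_combination hdet1
  have hg2cop : IsCoprime g2 (N : ℤ) := by
    obtain ⟨y, hy⟩ := hg1mod
    refine ⟨1, -(y + c * g), ?_⟩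
    rw [hg2]
    linear_combination hy
  have hcop2 : IsCoprime u2 g2 := by
    obtain ⟨α, β, hαβ⟩ := isCoprime_pow hg2cop n
    refine ⟨-(β * g), α + β * u, ?_⟩
    linear_combination hαβ + β * hdet2
  have hgN : IsCoprime g (N : ℤ) := ⟨σ, τ, hστ⟩
  have hlat2 : (N : ℤ) ^ n ∣ g2 * A - u2 := by
    have h1 : (N : ℤ) ^ n ∣ g * (g2 * A - u2) := by
      have h2 : g * (g2 * A - u2) = g2 * (g * A - u) + (u * g2 - u2 * g) := by ring
      rw [h2, hdet2]
      exact dvd_add (Dvd.dvd.mul_left h _) (dvd_refl _)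
    exact (isCoprime_pow hgN n).symm.dvd_of_dvd_mul_left h1
  obtain ⟨A', hA1, hA2⟩ := keep_step n A u2 g2 hlat2 hg2cop
  refine ⟨A', u2, g2, hA1, hA2, hcop2, hg2cop, hdet2, ?_⟩
  rw [hdet1, abs_of_nonneg (by positivity : (0 : ℤ) ≤ (N : ℤ) ^ n)] at hc
  exact hc

lemma step_exists (hN : 2 ≤ N) (n : ℕ) (kill : Prop) (s : St N n) :
    ∃ s' : St N (n + 1), (N : ℤ) ^ n ∣ s'.A - s.A ∧ (¬ kill → s'.u = s.u ∧ s'.g = s.g) ∧
      (kill → s.u * s'.g - s'.u * s.g = (N : ℤ) ^ n ∧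
        s.m * s'.m ≤ (N : ℤ) ^ n + N * s.m ^ 2) := by
  by_cases hk : kill
  · obtain ⟨A', u', g', h1, h2, h3, h4, h5, h6⟩ := kill_step hN n s.A s.u s.g s.lat s.cop s.copN
    exact ⟨⟨A', u', g', h2, h3, h4⟩, h1, fun h => absurd hk h, fun _ => ⟨h5, h6⟩⟩
  · obtain ⟨A', h1, h2⟩ := keep_step n s.A s.u s.g s.lat s.copN
    exact ⟨⟨A', s.u, s.g, h2, s.cop, s.copN⟩, h1, fun _ => ⟨rfl, rfl⟩, fun h => absurd h hk⟩

/-- The sequence of states attached to a threshold function `h`. -/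
noncomputable def stSeq (hN : 2 ≤ N) (h : ℕ → ℝ) : (n : ℕ) → St N n
  | 0 => ⟨0, 1, 1, by simp, isCoprime_one_left, isCoprime_one_left⟩
  | n + 1 => Classical.choose (step_exists hN n
      (Real.logb N ((stSeq hN h n).m : ℝ) ≤ h n) (stSeq hN h n))

lemma build (hN : 2 ≤ N) (h : ℕ → ℝ) :
    ∃ (a : ℕ → Fin N) (u g : ℕ → ℤ), (∀ n, IsCoprime (g n) (N : ℤ)) ∧ (∀ n, Lat a n (u n) (g n)) ∧
      (∀ n, h n < Real.logb N ((max |u n| |g n| : ℤ) : ℝ) →
        u (n + 1) = u n ∧ g (n + 1) = g n) ∧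
      (∀ n, Real.logb N ((max |u n| |g n| : ℤ) : ℝ) ≤ h n →
        u n * g (n + 1) - u (n + 1) * g n = (N : ℤ) ^ n ∧
        max |u n| |g n| * max |u (n + 1)| |g (n + 1)| ≤
          (N : ℤ) ^ n + N * (max |u n| |g n|) ^ 2) := by
  let S := stSeq hN h
  have hS : ∀ n, (N : ℤ) ^ n ∣ (S (n + 1)).A - (S n).A ∧
      (¬ (Real.logb N ((S n).m : ℝ) ≤ h n) → (S (n + 1)).u = (S n).u ∧ (S (n + 1)).g = (S n).g) ∧
      (Real.logb N ((S n).m : ℝ) ≤ h n →
        (S n).u * (S (n + 1)).g - (S (n + 1)).u * (S n).g = (N : ℤ) ^ n ∧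
        (S n).m * (S (n + 1)).m ≤ (N : ℤ) ^ n + N * (S n).m ^ 2) := fun n =>
    Classical.choose_spec (step_exists hN n (Real.logb N ((stSeq hN h n).m : ℝ) ≤ h n)
      (stSeq hN h n))
  obtain ⟨a, ha⟩ := exists_seq hN (fun n => (S n).A) (fun n => (hS n).1)
  refine ⟨a, fun n => (S n).u, fun n => (S n).g, fun n => (S n).copN, ?_, ?_, ?_⟩
  · intro n
    show (N : ℤ) ^ n ∣ (S n).g * trunc a n - (S n).u
    have h1 : (S n).g * trunc a n - (S n).u
        = ((S n).g * (S n).A - (S n).u) - (S n).g * ((S n).A - trunc a n) := by ring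
    rw [h1]
    exact dvd_sub (S n).lat (Dvd.dvd.mul_left (ha n) _)
  · intro n hn
    exact (hS n).2.1 (not_le.mpr hn)
  · intro n hn
    exact (hS n).2.2 hn

/-- Analysis of the construction. -/
lemma construction (hN : 2 ≤ N) (B : ℝ) (hB0 : 0 ≤ B) (hB1 : B ≤ 1 / 2) (h : ℕ → ℝ)
    (H1 : Tendsto (fun n : ℕ => (n : ℝ) - 2 * h n) atTop atTop)
    (H2 : Tendsto h atTop atTop)
    (H4 : Tendsto (fun n : ℕ => h n / n) atTop (nhds B)) :
    ∃ a : ℕ → Fin N, accSet a = Set.Icc B (1 - B) ∧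
      (∀ᶠ n in atTop, h n - 3 < lam a (n + 1)) ∧ (∃ᶠ n in atTop, lam a n ≤ h n) := by
  have hN1 : (1 : ℝ) < N := by exact_mod_cast (by omega : 1 < N)
  have hN0 : (0 : ℝ) < N := by linarith
  obtain ⟨a, u, g, hcop, hlat, hkeep, hkill⟩ := build hN h
  set m : ℕ → ℤ := fun n => max |u n| |g n| with hm
  set x : ℕ → ℝ := fun n => Real.logb N ((m n : ℤ) : ℝ) with hx
  have hmpos : ∀ n, 0 < m n := fun n =>
    lt_of_lt_of_le (abs_pos.mpr (ne_zero_of_coprime hN (hcop n))) (le_max_right _ _)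
  have hmposR : ∀ n, (0 : ℝ) < (m n : ℝ) := fun n => by exact_mod_cast hmpos n
  have hx0 : ∀ n, 0 ≤ x n := fun n => logb_max_pos hN (hmpos n)
  have hlamx : ∀ n, lam a n ≤ x n := by
    intro n
    rw [lam_eq hN]
    apply Real.logb_le_logb_of_le hN1
    · exact_mod_cast Lam_pos hN a n
    · exact_mod_cast Lam_le (hcop n) (hlat n)
  have hkeepx : ∀ n, h n < x n → x (n + 1) = x n := by
    intro n hn
    obtain ⟨h1, h2⟩ := hkeep n hn
    simp only [hx, hm, h1, h2]
  -- lower bound after a kill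
  have F1 : ∀ t, x t ≤ h t → t - x t - 1 ≤ lam a (t + 1) := by
    intro t ht
    obtain ⟨hdet, -⟩ := hkill t ht
    have hnot : ¬ Lat a (t + 1) (u t) (g t) := by
      intro hl
      have h1 : (N : ℤ) ^ (t + 1) ∣ u t * g (t + 1) - u (t + 1) * g t := by
        have h2 : u t * g (t + 1) - u (t + 1) * g t
            = g t * (g (t + 1) * trunc a (t + 1) - u (t + 1))
              - g (t + 1) * (g t * trunc a (t + 1) - u t) := by ring
        rw [h2]
        exact dvd_sub (Dvd.dvd.mul_left (hlat (t + 1)) _) (Dvd.dvd.mul_left hl _)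
      rw [hdet, pow_succ] at h1
      have h3 : (N : ℤ) ^ t ≠ 0 := by positivity
      have h4 : (N : ℤ) ^ t * (N : ℤ) ∣ (N : ℤ) ^ t * 1 := by rwa [mul_one]
      have h5 := (mul_dvd_mul_iff_left h3).mp h4
      have h6 := Int.le_of_dvd one_pos h5
      have h7 : N ≤ 1 := by exact_mod_cast h6
      omega
    obtain ⟨u', g', hg', hl', hLam⟩ := Lam_spec a (t + 1)
    have h1 := sep (hlat t) hnot hg' hl'
    rw [← hLam] at h1
    have hLpos : (0 : ℝ) < Lam a (t + 1) := by exact_mod_cast Lam_pos hN a (t + 1)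
    have h2 : Real.logb N ((N : ℝ) ^ t) ≤ Real.logb N (2 * (m t : ℝ) * Lam a (t + 1)) := by
      apply Real.logb_le_logb_of_le hN1 (by positivity)
      exact_mod_cast h1
    have hmt := hmposR t
    rw [Real.logb_pow, Real.logb_self_eq_one hN1, mul_one,
      Real.logb_mul (by positivity) (ne_of_gt hLpos), Real.logb_mul (by norm_num) (ne_of_gt hmt),
      ← lam_eq hN] at h2
    have h3 := logb_two_le_one hN
    have h4 : Real.logb N (m t : ℝ) = x t := rfl
    rw [h4] at h2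
    linarith
  -- upper bound after a kill
  have F2 : ∀ t, x t ≤ h t → 2 * h t ≤ t → x (t + 1) ≤ t - x t + 2 := by
    intro t ht ht2
    obtain ⟨-, hprod⟩ := hkill t ht
    have h1 : ((m t : ℤ) : ℝ) ^ 2 ≤ (N : ℝ) ^ t := by
      have h2 : Real.logb N (((m t : ℤ) : ℝ) ^ 2) ≤ Real.logb N ((N : ℝ) ^ t) := by
        rw [Real.logb_pow, Real.logb_pow, Real.logb_self_eq_one hN1]
        have h4 : Real.logb N (m t : ℝ) = x t := rfl
        rw [h4]
        push_cast
        linarith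
      have h5 := hmposR t
      exact (Real.logb_le_logb hN1 (by positivity) (by positivity)).mp h2
    have h2 : ((m t : ℤ) : ℝ) * ((m (t + 1) : ℤ) : ℝ) ≤ (N : ℝ) ^ 2 * (N : ℝ) ^ t := by
      have h3 : ((m t : ℤ) : ℝ) * ((m (t + 1) : ℤ) : ℝ) ≤
          (N : ℝ) ^ t + N * ((m t : ℤ) : ℝ) ^ 2 := by
        exact_mod_cast hprod
      have h4 : (0 : ℝ) < (N : ℝ) ^ t := by positivity
      have h5 : (2 : ℝ) ≤ N := by exact_mod_cast hN
      nlinarith [mul_le_mul_of_nonneg_left h1 hN0.le, mul_nonneg h4.le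
        (show (0 : ℝ) ≤ (N : ℝ) ^ 2 - N - 1 by nlinarith)]
    have h3 : Real.logb N (((m t : ℤ) : ℝ) * ((m (t + 1) : ℤ) : ℝ)) ≤
        Real.logb N ((N : ℝ) ^ 2 * (N : ℝ) ^ t) := by
      apply Real.logb_le_logb_of_le hN1
      · have := hmposR t
        have := hmposR (t + 1)
        positivity
      · exact h2
    rw [Real.logb_mul (ne_of_gt (hmposR t)) (ne_of_gt (hmposR (t + 1))),
      Real.logb_mul (by positivity) (by positivity), Real.logb_pow, Real.logb_pow,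
      Real.logb_self_eq_one hN1] at h3
    have h4 : Real.logb N (m t : ℝ) = x t := rfl
    have h5 : Real.logb N (m (t + 1) : ℝ) = x (t + 1) := rfl
    rw [h4, h5] at h3
    push_cast at h3
    linarith
  obtain ⟨n1, hn1⟩ := eventually_atTop.mp (H1.eventually_gt_atTop 1)
  -- infinitely many kills
  have F3 : ∀ K, ∃ t, K ≤ t ∧ x t ≤ h t := by
    intro K
    by_contra hcon
    push Not at hcon
    have hconst : ∀ j, x (K + j) = x K := by
      intro j
      induction j with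
      | zero => rfl
      | succ j ih =>
        rw [← add_assoc, hkeepx (K + j) (hcon (K + j) (by omega)), ih]
    obtain ⟨n, hn, hn'⟩ := ((H2.eventually_gt_atTop (x K)).and (eventually_ge_atTop K)).exists
    obtain ⟨j, rfl⟩ := Nat.exists_eq_add_of_le hn'
    have h1 := hcon (K + j) (by omega)
    rw [hconst j] at h1
    linarith
  have F4 : ∀ n, n1 ≤ n → h n < x (n + 1) := by
    intro n hn
    rcases lt_or_ge (h n) (x n) with h1 | h1
    · rw [hkeepx n h1]; exact h1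
    · have h2 := F1 n h1
      have h3 := hlamx (n + 1)
      have h4 := hn1 n hn
      linarith
  have F5 : ∀ᶠ n in atTop, x n - 3 ≤ lam a n := by
    obtain ⟨t0, ht0, hk0⟩ := F3 n1
    have hkillstep : ∀ t, n1 ≤ t → x t ≤ h t → x (t + 1) - 3 ≤ lam a (t + 1) := by
      intro t ht hkt
      have h1 := F1 t hkt
      have h2 := F2 t hkt (by linarith [hn1 t ht])
      linarith
    rw [eventually_atTop]
    refine ⟨t0 + 1, fun n hn => ?_⟩
    induction n, hn using Nat.le_induction with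
    | base => exact hkillstep t0 ht0 hk0
    | succ n hn ih =>
      rcases lt_or_ge (h n) (x n) with h1 | h1
      · rw [hkeepx n h1]
        exact ih.trans (lam_mono hN a (Nat.le_succ n))
      · exact hkillstep n (by omega) h1
  have D1 : ∀ᶠ n in atTop, h n - 3 < lam a (n + 1) := by
    have h1 : ∀ᶠ n in atTop, x (n + 1) - 3 ≤ lam a (n + 1) :=
      (tendsto_add_atTop_nat 1).eventually F5
    filter_upwards [h1, eventually_ge_atTop n1] with n hn hn'
    linarith [F4 n hn']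
  have D2 : ∃ᶠ n in atTop, x n ≤ h n := by
    rw [frequently_atTop]
    intro K
    obtain ⟨t, ht, hk⟩ := F3 K
    exact ⟨t, ht, hk⟩
  -- two-sided bounds on h
  have Hlo : ∀ ε > 0, ∀ᶠ n : ℕ in atTop, (B - ε) * n ≤ h n := by
    intro ε hε
    have h1 := H4.eventually (lt_mem_nhds (show B - ε < B by linarith))
    filter_upwards [h1, eventually_gt_atTop 0] with n hn hn0
    have h2 : (0 : ℝ) < n := by exact_mod_cast hn0
    rw [lt_div_iff₀ h2] at hn
    exact hn.le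
  have Hhi : ∀ ε > 0, ∀ᶠ n : ℕ in atTop, h n ≤ (B + ε) * n := by
    intro ε hε
    have h1 := H4.eventually (gt_mem_nhds (show B < B + ε by linarith))
    filter_upwards [h1, eventually_gt_atTop 0] with n hn hn0
    have h2 : (0 : ℝ) < n := by exact_mod_cast hn0
    rw [div_lt_iff₀ h2] at hn
    exact hn.le
  have Hlin : ∀ ε > 0, ∀ c : ℝ, ∀ᶠ n : ℕ in atTop, c ≤ ε * n := by
    intro ε hε c
    have h1 : Tendsto (fun n : ℕ => ε * (n : ℝ)) atTop atTop :=
      Tendsto.const_mul_atTop hε tendsto_natCast_atTop_atTop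
    exact h1.eventually_ge_atTop c
  refine ⟨a, ?_, D1, D2.mono (fun n hn => (hlamx n).trans hn)⟩
  apply accSet_eq_Icc hN
  · -- eventually B - ε ≤ δ
    intro ε hε
    have h1 : ∀ᶠ n : ℕ in atTop, B - ε ≤ delta a (n + 1) := by
      filter_upwards [D1, Hlo (ε / 2) (by linarith), Hlin (ε / 2) (by linarith) (B + 3)] with
        n hn1 hn2 hn3
      unfold delta
      rw [le_div_iff₀ (by positivity)]
      push_cast
      nlinarith
    rw [eventually_atTop] at h1 ⊢
    obtain ⟨K, hK⟩ := h1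
    refine ⟨K + 1, fun n hn => ?_⟩
    obtain ⟨j, rfl⟩ : ∃ j, n = j + 1 := ⟨n - 1, by omega⟩
    exact hK j (by omega)
  · -- eventually δ ≤ 1 - B + ε
    intro ε hε
    obtain ⟨n2, hn2⟩ := eventually_atTop.mp
      ((Hlo (ε / 2) (by linarith)).and (Hlin (ε / 2) (by linarith) (2 + B)))
    have hkillstep : ∀ t, n1 + n2 + 1 ≤ t → x t ≤ h t →
        x (t + 1) ≤ (1 - B + ε) * ((t + 1 : ℕ) : ℝ) := by
      intro t ht hkt
      have h1 := F2 t hkt (by linarith [hn1 t (by omega)])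
      obtain ⟨r, rfl⟩ : ∃ r, t = r + 1 := ⟨t - 1, by omega⟩
      have h2 := F4 r (by omega)
      obtain ⟨h3, h4⟩ := hn2 r (by omega)
      push_cast at h1 ⊢
      nlinarith
    have hev : ∀ᶠ n : ℕ in atTop, x n ≤ (1 - B + ε) * n := by
      obtain ⟨t0, ht0, hk0⟩ := F3 (n1 + n2 + 1)
      rw [eventually_atTop]
      refine ⟨t0 + 1, fun n hn => ?_⟩
      induction n, hn using Nat.le_induction with
      | base => exact hkillstep t0 ht0 hk0
      | succ n hn ih =>
        rcases lt_or_ge (h n) (x n) with h1 | h1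
        · rw [hkeepx n h1]
          push_cast
          nlinarith
        · exact hkillstep n (by omega) h1
    filter_upwards [hev, eventually_gt_atTop 0] with n hn hn0
    have h2 : (0 : ℝ) < n := by exact_mod_cast hn0
    unfold delta
    rw [div_le_iff₀ h2]
    exact (hlamx n).trans hn
  · -- frequently δ ≤ B + ε
    intro ε hε
    refine (D2.and_eventually ((Hhi ε hε).and (eventually_gt_atTop 0))).mono ?_
    rintro n ⟨hn1, hn2, hn3⟩
    have h2 : (0 : ℝ) < n := by exact_mod_cast hn3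
    unfold delta
    rw [div_le_iff₀ h2]
    exact ((hlamx n).trans hn1).trans hn2
  · -- frequently 1 - B - ε ≤ δ
    intro ε hε
    have h1 : ∃ᶠ n : ℕ in atTop, 1 - B - ε ≤ delta a (n + 1) := by
      refine (D2.and_eventually ((Hhi (ε / 2) (by linarith)).and
        (Hlin (ε / 2) (by linarith) 2))).mono ?_
      rintro n ⟨hn1, hn2, hn3⟩
      have h2 := F1 n hn1
      unfold delta
      rw [le_div_iff₀ (by positivity)]
      push_cast
      nlinarith
    rw [frequently_atTop] at h1 ⊢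
    intro K
    obtain ⟨n, hn, hn'⟩ := h1 K
    exact ⟨n + 1, by omega, hn'⟩

end NAdicCx
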