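import Mathlib
import Pool.Agent.NAdicCx.PartB

/-!
# Assertion (b) holds for every N ≥ 2: uncountably many sequences
-/

namespace NAdicCx

open Filter

variable {N : ℕ}

lemma tendsto_linear_sqrt (α c : ℝ) (hα : 0 ≤ α) (h : 0 < α ∨ 0 < c) :
    Tendsto (fun n : ℕ => α * (n : ℝ) + c * Real.sqrt n) atTop atTop := by
  have hsqrt : Tendsto (fun n : ℕ => Real.sqrt (n : ℝ)) atTop atTop :=
    Real.tendsto_sqrt_atTop.comp tendsto_natCast_atTop_atTop
  rcases hα.eq_or_lt with h0 | hpos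
  · have hc : 0 < c := by
      rcases h with h | h
      · exact absurd h (by rw [← h0]; exact lt_irrefl _)
      · exact h
    have h1 : (fun n : ℕ => α * (n : ℝ) + c * Real.sqrt n) = fun n : ℕ => c * Real.sqrt n := by
      funext n; rw [← h0]; ring
    rw [h1]
    exact hsqrt.const_mul_atTop hc
  · have h1 : (fun n : ℕ => α * (n : ℝ) + c * Real.sqrt n)
        = fun n : ℕ => Real.sqrt n * (α * Real.sqrt n + c) := by
      funext n
      have : (n : ℝ) = Real.sqrt n * Real.sqrt n := (Real.mul_self_sqrt (by positivity)).symm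
      linear_combination α * this
    rw [h1]
    exact hsqrt.atTop_mul_atTop₀ ((hsqrt.const_mul_atTop hpos).atTop_add tendsto_const_nhds)

lemma sqrt_succ_le (n : ℕ) : Real.sqrt ((n + 1 : ℕ) : ℝ) ≤ Real.sqrt n + 1 := by
  have h0 := Real.sqrt_nonneg (n : ℝ)
  rw [Real.sqrt_le_left (by linarith)]
  have h1 := Real.sq_sqrt (show (0 : ℝ) ≤ n by positivity)
  push_cast
  nlinarith

/-- Assertion (b) holds for every `N ≥ 2`. -/
theorem assertionB (hN : 2 ≤ N) : AssertionB N := by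
  rintro B ⟨hB0, hB1⟩ hcount
  -- thresholds
  let h : ℝ → ℕ → ℝ := fun s n => B * n + (1 - 4 * B + s) * Real.sqrt n
  have hsqrt : Tendsto (fun n : ℕ => Real.sqrt (n : ℝ)) atTop atTop :=
    Real.tendsto_sqrt_atTop.comp tendsto_natCast_atTop_atTop
  have main : ∀ s ∈ Set.Ioo (-1 / 2 : ℝ) (1 / 2), ∃ a : ℕ → Fin N,
      accSet a = Set.Icc B (1 - B) ∧
      (∀ᶠ n in atTop, h s n - 3 < lam a (n + 1)) ∧ (∃ᶠ n in atTop, lam a n ≤ h s n) := by
    rintro s ⟨hs1, hs2⟩
    apply construction hN B hB0 hB1 (h s)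
    · have h1 := tendsto_linear_sqrt (1 - 2 * B) (-2 * (1 - 4 * B + s)) (by linarith) (by
        rcases hB1.eq_or_lt with h2 | h2
        · right; rw [h2]; linarith
        · left; linarith)
      refine h1.congr (fun n => ?_)
      simp only [h]
      ring
    · exact tendsto_linear_sqrt B (1 - 4 * B + s) hB0 (by
        rcases hB0.eq_or_lt with h2 | h2
        · right; rw [← h2]; linarith
        · left; exact h2)
    · have h1 : Tendsto (fun n : ℕ => B + (1 - 4 * B + s) * (Real.sqrt (n : ℝ))⁻¹) atTop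
          (nhds (B + (1 - 4 * B + s) * 0)) :=
        tendsto_const_nhds.add (tendsto_const_nhds.mul hsqrt.inv_tendsto_atTop)
      rw [mul_zero, add_zero] at h1
      refine h1.congr' ?_
      filter_upwards [eventually_gt_atTop 0] with n hn
      have hn0 : (0 : ℝ) < n := by exact_mod_cast hn
      have hs0 : 0 < Real.sqrt (n : ℝ) := Real.sqrt_pos.mpr hn0
      simp only [h]
      rw [add_div, mul_div_assoc, div_self (ne_of_gt hn0), mul_one, mul_div_assoc,
        Real.sqrt_div_self', one_div]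
  have : Nonempty (ℕ → Fin N) := ⟨fun _ => ⟨0, by omega⟩⟩
  choose! F hF1 hF2 hF3 using main
  have hmaps : Set.MapsTo F (Set.Ioo (-1 / 2 : ℝ) (1 / 2))
      {a : ℕ → Fin N | accSet a = Set.Icc B (1 - B)} := fun s hs => hF1 s hs
  have hlt : ∀ s ∈ Set.Ioo (-1 / 2 : ℝ) (1 / 2), ∀ s' ∈ Set.Ioo (-1 / 2 : ℝ) (1 / 2),
      s < s' → F s ≠ F s' := by
    intro s hs s' hs' hss heq
    have h1 := hF2 s' hs'
    have h2 := hF3 s hs
    rw [heq] at h2
    have h3 : ∃ᶠ n in atTop, lam (F s') (n + 1) ≤ h s (n + 1) := by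
      rw [frequently_atTop] at h2 ⊢
      intro K
      obtain ⟨n, hn, hn'⟩ := h2 (K + 1)
      obtain ⟨j, rfl⟩ : ∃ j, n = j + 1 := ⟨n - 1, by omega⟩
      exact ⟨j, by omega, hn'⟩
    have h4 : Tendsto (fun n : ℕ => (s' - s) * Real.sqrt (n : ℝ)) atTop atTop :=
      hsqrt.const_mul_atTop (by linarith)
    obtain ⟨n, hn1, hn2, hn3⟩ := (h3.and_eventually (h1.and
      (h4.eventually_gt_atTop (3 + B + |1 - 4 * B + s|)))).exists
    have h5 : h s' n - 3 < h s (n + 1) := lt_of_lt_of_le hn2 hn1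
    simp only [h] at h5
    have h6 := sqrt_succ_le n
    have h7 : Real.sqrt n ≤ Real.sqrt ((n + 1 : ℕ) : ℝ) :=
      Real.sqrt_le_sqrt (by push_cast; linarith)
    have h8 : (1 - 4 * B + s) * (Real.sqrt ((n + 1 : ℕ) : ℝ) - Real.sqrt n)
        ≤ |1 - 4 * B + s| := by
      have h9 := le_abs_self (1 - 4 * B + s)
      have h10 := abs_nonneg (1 - 4 * B + s)
      nlinarith
    push_cast at h5 h8
    nlinarith
  have hinj : Set.InjOn F (Set.Ioo (-1 / 2 : ℝ) (1 / 2)) := by
    intro s hs s' hs' heq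
    rcases lt_trichotomy s s' with h1 | h1 | h1
    · exact absurd heq (hlt s hs s' hs' h1)
    · exact h1
    · exact absurd heq.symm (hlt s' hs' s hs h1)
  have hIoo : (Set.Ioo (-1 / 2 : ℝ) (1 / 2)).Countable := hmaps.countable_of_injOn hinj hcount
  have h1 : Cardinal.mk (Set.Ioo (-1 / 2 : ℝ) (1 / 2)) ≤ Cardinal.aleph0 :=
    Cardinal.le_aleph0_iff_set_countable.mpr hIoo
  rw [Cardinal.mk_Ioo_real (by norm_num)] at h1
  exact absurd h1 (not_le.mpr Cardinal.aleph0_lt_continuum)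

end NAdicCx
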